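import Pool.Agent.H300R2.WEH.Up

/-!
The weighted level of distribution for almost all residues: upgrade of the final theorem of the
project on MP_00e23e_nt (`H442R2/EHI`) to the maximum over `y ≤ N` and weights `κ^ν(d)`.
-/

set_option autoImplicit false

namespace Pool.Agent.H300R2.WEH

open Finset
open Pool.Agent.H442R2.EHI

/-- the final statement of the project `H442R2/EHI` -/
def FinalS (ε : ℝ) (U : ℕ) : Prop :=
    ∃ (B : ℕ) (C : ℝ), ∀ x : ℕ, 3 ≤ x →
    ∀ A a0 : ℕ, a0 + A ≤ x →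
    ((x : ℝ) ^ (1 / 3 : ℝ) * Real.log x ^ B ≤ A →
      ∑ a ∈ Ioc a0 (a0 + A), ∑ d ∈ (Icc 1 ⌊(x : ℝ) ^ (1 - ε)⌋₊).filter (fun d => a.Coprime d),
        |piAP x d a - (∫ t in (2 : ℝ)..x, 1 / Real.log t) / (Nat.totient d : ℝ)| ≤
      C * (A * x / Real.log x ^ U)) ∧
    (∀ D : ℕ, (x : ℝ) ^ (1 / 2 : ℝ) ≤ D → (D : ℝ) ≤ (x : ℝ) ^ (1 - ε) →
      x * Real.log x ^ B ≤ (A : ℝ) * D →
      ∑ a ∈ Ioc a0 (a0 + A), ∑ d ∈ (Ioc D (2 * D)).filter (fun d => a.Coprime d),
        |piAP x d a - (∫ t in (2 : ℝ)..x, 1 / Real.log t) / (Nat.totient d : ℝ)| ≤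
      C * (A * x / Real.log x ^ U))

lemma eL_le_Li (x d a : ℕ) (hx : 2 ≤ x) :
    eL x d a ≤ |piAP x d a - (∫ t in (2 : ℝ)..x, 1 / Real.log t) / (Nat.totient d : ℝ)| +
      2 * (1 / (Nat.totient d : ℝ)) := by
  have h := FinalOf.lis_sub x hx
  unfold eL
  set I := ∫ t in (2 : ℝ)..x, 1 / Real.log t
  have e : piAP x d a - lis x / (Nat.totient d : ℝ) =
      (piAP x d a - I / (Nat.totient d : ℝ)) - (lis x - I) * (1 / (Nat.totient d : ℝ)) := by
    ring
  rw [e]
  refine (abs_sub _ _).trans ?_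
  rw [abs_mul, abs_of_nonneg (by positivity : (0:ℝ) ≤ 1 / (Nat.totient d : ℝ))]
  have : |lis x - I| * (1 / (Nat.totient d : ℝ)) ≤ 2 * (1 / (Nat.totient d : ℝ)) :=
    mul_le_mul_of_nonneg_right h (by positivity)
  linarith

/-- a trivial bound for every modulus -/
lemma errMax_triv' (N d l : ℕ) (hN : 2 ≤ N) (hd : 1 ≤ d) : errMax N d l ≤ 2 * N := by
  have hφ : (1 : ℝ) ≤ Nat.totient d := by exact_mod_cast Nat.totient_pos.mpr (by omega)
  have hφ0 : (0 : ℝ) < Nat.totient d := by linarith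
  have hne : Nonempty (Set.Icc (2 : ℝ) N) := ⟨⟨2, le_rfl, by exact_mod_cast hN⟩⟩
  have hN0 : (0 : ℝ) ≤ N := Nat.cast_nonneg _
  apply ciSup_le
  rintro ⟨y, hy2, hyN⟩
  simp only
  have hn : ⌊y⌋₊ ≤ N := by
    have := Nat.floor_le_floor hyN
    rwa [Nat.floor_natCast] at this
  have hnr : ((⌊y⌋₊ : ℕ) : ℝ) ≤ N := by exact_mod_cast hn
  have h1 : (piR y d l : ℝ) ≤ 2 * N := by
    have hc : ((piR y d l : ℕ) : ℝ) ≤ ⌊y⌋₊ := by
      unfold piR
      exact_mod_cast (card_filter_le _ _).trans (by simp)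
    linarith
  have h3 : 0 ≤ (∫ t in (2 : ℝ)..y, 1 / Real.log t) := by
    apply intervalIntegral.integral_nonneg hy2
    intro t ht
    have : 0 < Real.log t := Real.log_pos (by linarith [ht.1])
    positivity
  have h4 : (∫ t in (2 : ℝ)..y, 1 / Real.log t) ≤ 2 * N := by
    have h := intervalIntegral.norm_integral_le_of_norm_le_const (a := (2 : ℝ)) (b := y)
      (f := fun t => 1 / Real.log t) (C := 2) (by
        intro t ht
        rw [Set.uIoc_of_le hy2] at ht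
        have h3 : Real.log 2 ≤ Real.log t := Real.log_le_log (by norm_num) ht.1.le
        have := Real.log_two_gt_d9
        rw [Real.norm_eq_abs, abs_of_pos (by
          have : 0 < Real.log t := by linarith
          positivity), div_le_iff₀ (by linarith)]
        linarith)
    rw [Real.norm_eq_abs, abs_of_nonneg (by linarith : (0:ℝ) ≤ y - 2)] at h
    have := le_abs_self (∫ t in (2 : ℝ)..y, 1 / Real.log t)
    linarith
  have h5 : (∫ t in (2 : ℝ)..y, 1 / Real.log t) / (Nat.totient d : ℝ) ≤ 2 * N :=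
    (div_le_self h3 hφ).trans h4
  have h6 : 0 ≤ (∫ t in (2 : ℝ)..y, 1 / Real.log t) / (Nat.totient d : ℝ) := by positivity
  have h7 : (0 : ℝ) ≤ (piR y d l : ℝ) := Nat.cast_nonneg _
  unfold err
  rw [abs_le]
  constructor <;> linarith

lemma primeFactors_card_le (d M : ℕ) (hd : d ≤ M) : d.primeFactors.card ≤ M := by
  calc d.primeFactors.card ≤ (Icc 1 d).card := card_le_card (by
        intro p hp
        rw [mem_Icc]
        exact ⟨(Nat.prime_of_mem_primeFactors hp).one_le, Nat.le_of_mem_primeFactors hp⟩)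
    _ = d := by simp
    _ ≤ M := hd

lemma sum_pairs (A a0 N : ℕ) (S : ℕ → Finset ℕ) (hS : ∀ a, S a ⊆ Icc 1 N)
    (F : ℕ → ℝ) (hF : ∀ d, 0 ≤ F d) :
    ∑ i ∈ (Ioc a0 (a0 + A)).sigma S, F i.2 ≤ A * ∑ d ∈ Icc 1 N, F d := by
  rw [sum_sigma]
  calc ∑ a ∈ Ioc a0 (a0 + A), ∑ d ∈ S a, F d ≤ ∑ a ∈ Ioc a0 (a0 + A), ∑ d ∈ Icc 1 N, F d :=
        sum_le_sum fun a _ => sum_le_sum_of_subset_of_nonneg (hS a) fun d _ _ => hF d
    _ = _ := by
        rw [sum_const, Nat.card_Ioc, nsmul_eq_mul]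
        congr 2
        omega

/-- one application: large `N`, a family of sets `S a` of moduli -/
theorem large_of (κ : ℝ) (hκ : 1 ≤ κ) (U : ℕ) : ∃ (U2 K N0 : ℕ), ∀ N : ℕ, N0 ≤ N →
    ∀ A a0 : ℕ, ∀ S : ℕ → Finset ℕ, (∀ a, S a ⊆ Icc 1 N) →
    (∀ j ∈ Icc 1 (JJ K N), ∑ a ∈ Ioc a0 (a0 + A), ∑ d ∈ S a,
      |piAP (gp N (JJ K N) j) d a - (∫ t in (2 : ℝ)..(gp N (JJ K N) j : ℕ), 1 / Real.log t) /
        (Nat.totient d : ℝ)| ≤ A * N / Real.log N ^ U2) →
    ∑ a ∈ Ioc a0 (a0 + A), ∑ d ∈ S a, κ ^ d.primeFactors.card * errMax N d a ≤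
      A * N / Real.log N ^ U := by
  have hκ2 : (1 : ℝ) ≤ κ ^ 2 := one_le_pow₀ hκ
  obtain ⟨c, hc⟩ := sum_log (κ ^ 2) hκ2
  obtain ⟨c1, hc1⟩ := sum_log 1 le_rfl
  obtain ⟨W, hW⟩ := upWeight κ c U
  obtain ⟨U1, K, N1, hup⟩ := upMax c1 W
  obtain ⟨N2, hgp⟩ := gp_facts K
  have hev1 := FinalOf.ev (c1 + U1 + 1) 1 one_pos 1 (by norm_num)
  have hev2 := FinalOf.ev K 1 one_pos 8 (by norm_num)
  have hev5 : ∀ᶠ X : ℝ in Filter.atTop, (4 : ℝ) ≤ Real.log X :=
    Real.tendsto_log_atTop.eventually (Filter.eventually_ge_atTop _)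
  have hev6 : ∀ᶠ X : ℝ in Filter.atTop, (8 : ℝ) ≤ X := Filter.eventually_ge_atTop _
  obtain ⟨Y, hY⟩ := Filter.eventually_atTop.mp (hev1.and (hev2.and (hev5.and hev6)))
  refine ⟨U1 + 1, K, max (max N1 N2) ⌈Y⌉₊, fun N hN A a0 S hS h => ?_⟩
  have hxN1 : N1 ≤ N := ((le_max_left _ _).trans (le_max_left _ _)).trans hN
  have hxN2 : N2 ≤ N := ((le_max_right _ _).trans (le_max_left _ _)).trans hN
  obtain ⟨e1, e2, e3, e4⟩ := hY N ((Nat.le_ceil Y).trans (by
    exact_mod_cast (le_max_right _ _).trans hN))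
  rw [Real.rpow_one] at e1 e2
  rw [one_mul] at e1
  have hN8 : 8 ≤ N := by exact_mod_cast e4
  have hN0 : (0 : ℝ) < N := by linarith
  set ℓ := Real.log (N : ℝ) with hℓ
  have hℓ0 : 0 < ℓ := by linarith
  have hA0 : (0 : ℝ) ≤ A := Nat.cast_nonneg _
  have hd : ∀ i ∈ (Ioc a0 (a0 + A)).sigma S, 1 ≤ i.2 ∧ i.2 ≤ N := by
    intro i hi
    rw [mem_sigma] at hi
    have := hS _ hi.2
    rwa [mem_Icc] at this
  have hsum1 : ∑ i ∈ (Ioc a0 (a0 + A)).sigma S, 1 / (Nat.totient i.2 : ℝ) ≤ A * ℓ ^ c1 := by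
    refine (sum_pairs A a0 N S hS (fun d => 1 / (Nat.totient d : ℝ))
      (fun d => by positivity)).trans ?_
    have h := hc1 N hN8
    simp only [one_pow] at h
    exact mul_le_mul_of_nonneg_left h hA0
  have hsum2 : ∑ i ∈ (Ioc a0 (a0 + A)).sigma S,
      (κ ^ 2) ^ (i.2).primeFactors.card / (Nat.totient i.2 : ℝ) ≤ A * ℓ ^ c := by
    refine (sum_pairs A a0 N S hS (fun d => (κ ^ 2) ^ d.primeFactors.card / (Nat.totient d : ℝ))
      (fun d => by positivity)).trans ?_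
    exact mul_le_mul_of_nonneg_left (hc N hN8) hA0
  have hmain := hup N hxN1 ((Ioc a0 (a0 + A)).sigma S) (fun i => i.2) (fun i => i.1) A hA0
    (fun i hi => (hd i hi).1) hsum1 ?_
  · have hfin := hW N hN8 ((Ioc a0 (a0 + A)).sigma S) (fun i => i.2)
        (fun i => errMax N i.2 i.1) A hA0
        (fun i hi => ⟨errMax_nonneg _ _ _, errMax_triv N i.2 i.1 (by omega) (hd i hi).1
          (hd i hi).2⟩) hsum2 hmain
    rw [sum_sigma] at hfin
    exact hfin
  · intro j hj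
    obtain ⟨g1, g2⟩ := hgp N hxN2 j hj
    have hy2 : 2 ≤ gp N (JJ K N) j := by
      have : (2 : ℝ) ≤ gp N (JJ K N) j := by
        refine le_trans ?_ g1
        rw [le_div_iff₀ (by positivity)]
        linarith
      exact_mod_cast this
    have h1 := h j hj
    have hpt : ∑ i ∈ (Ioc a0 (a0 + A)).sigma S, eL (gp N (JJ K N) j) i.2 i.1 ≤
        ∑ i ∈ (Ioc a0 (a0 + A)).sigma S, (|piAP (gp N (JJ K N) j) i.2 i.1 -
          (∫ t in (2 : ℝ)..(gp N (JJ K N) j : ℕ), 1 / Real.log t) / (Nat.totient i.2 : ℝ)| +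
          2 * (1 / (Nat.totient i.2 : ℝ))) :=
      sum_le_sum fun i _ => eL_le_Li _ _ _ hy2
    refine hpt.trans ?_
    rw [sum_add_distrib, ← mul_sum, sum_sigma]
    have h2 : 2 * ∑ i ∈ (Ioc a0 (a0 + A)).sigma S, 1 / (Nat.totient i.2 : ℝ) ≤
        2 * (A * ℓ ^ c1) := by linarith
    have h3 : (A : ℝ) * ℓ ^ c1 ≤ A * N / ℓ ^ (U1 + 1) := by
      rw [le_div_iff₀ (by positivity)]
      calc (A : ℝ) * ℓ ^ c1 * ℓ ^ (U1 + 1) = A * ℓ ^ (c1 + U1 + 1) := by ring
        _ ≤ A * N := mul_le_mul_of_nonneg_left e1 hA0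
    have h4 : A * N / ℓ ^ U1 = ℓ * (A * N / ℓ ^ (U1 + 1)) := by
      rw [pow_succ]
      field_simp
    have h5 : 0 ≤ A * N / ℓ ^ (U1 + 1) := by positivity
    simp only at h1 ⊢
    rw [h4]
    have h6 : 4 * (A * N / ℓ ^ (U1 + 1)) ≤ ℓ * (A * N / ℓ ^ (U1 + 1)) :=
      mul_le_mul_of_nonneg_right e3 h5
    linarith

/-- **weighted level of distribution for almost all residues** (from the final theorem of
`H442R2/EHI`) -/
theorem weighted_of (hfinal : ∀ ε : ℝ, 0 < ε → ∀ U : ℕ, FinalS ε U)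
    (κ : ℝ) (hκ : 1 ≤ κ) (α : ℝ) (hα : α < 1) (U : ℕ) :
    ∃ (B : ℕ) (C : ℝ), ∀ N : ℕ, 3 ≤ N → ∀ A a0 : ℕ,
    ((a0 + A : ℕ) : ℝ) ≤ N / Real.log N ^ B →
    ((N : ℝ) ^ (1 / 3 : ℝ) * Real.log N ^ B ≤ A →
      ∑ a ∈ Ioc a0 (a0 + A), ∑ d ∈ (Icc 1 ⌊(N : ℝ) ^ α⌋₊).filter (fun d => a.Coprime d),
        κ ^ d.primeFactors.card * errMax N d a ≤ C * (A * N / Real.log N ^ U)) ∧
    (∀ D : ℕ, (N : ℝ) ^ (1 / 2 : ℝ) ≤ D → (D : ℝ) ≤ (N : ℝ) ^ α →
      N * Real.log N ^ B ≤ (A : ℝ) * D →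
      ∑ a ∈ Ioc a0 (a0 + A), ∑ d ∈ (Ioc D (2 * D)).filter (fun d => a.Coprime d),
        κ ^ d.primeFactors.card * errMax N d a ≤ C * (A * N / Real.log N ^ U)) := by
  have hκ0 : 0 ≤ κ := by linarith
  obtain ⟨U2, K, N1, hlarge⟩ := large_of κ hκ U
  obtain ⟨δ, hδ⟩ : ∃ δ : ℝ, δ = min ((1 - α) / 2) (1 / 2) := ⟨_, rfl⟩
  have hδ0 : 0 < δ := by
    rw [hδ]
    apply lt_min <;> linarith
  have hδα : δ ≤ (1 - α) / 2 := by rw [hδ]; exact min_le_left _ _
  have hδ2 : δ ≤ 1 / 2 := by rw [hδ]; exact min_le_right _ _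
  obtain ⟨B1, C1, hfin⟩ := hfinal δ hδ0 (U2 + 1)
  obtain ⟨N2, hgp⟩ := gp_facts K
  have hev1 := FinalOf.ev K δ hδ0 4 (by norm_num)
  have hev2 := FinalOf.ev K (1 / 2) (by norm_num) 4 (by norm_num)
  have hev3 := FinalOf.ev 0 δ hδ0 3 (by norm_num)
  have hev5 : ∀ᶠ X : ℝ in Filter.atTop, (4 : ℝ) + 2 ^ (U2 + 1) * |C1| ≤ Real.log X :=
    Real.tendsto_log_atTop.eventually (Filter.eventually_ge_atTop _)
  have hev6 : ∀ᶠ X : ℝ in Filter.atTop, (9 : ℝ) ≤ X := Filter.eventually_ge_atTop _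
  obtain ⟨Y, hY⟩ := Filter.eventually_atTop.mp
    (hev1.and (hev2.and (hev3.and (hev5.and hev6))))
  obtain ⟨x0, hx0⟩ : ∃ x0 : ℕ, x0 = max (max N1 N2) ⌈Y⌉₊ := ⟨_, rfl⟩
  obtain ⟨B, hB⟩ : ∃ B : ℕ, B = B1 + K + 1 := ⟨_, rfl⟩
  obtain ⟨C, hC⟩ : ∃ C : ℝ, C = max 1 (κ ^ (2 * x0) * (2 * x0) * Real.log x0 ^ U) := ⟨_, rfl⟩
  have hC1 : 1 ≤ C := by rw [hC]; exact le_max_left _ _
  have hC2 : κ ^ (2 * x0) * (2 * x0) * Real.log x0 ^ U ≤ C := by rw [hC]; exact le_max_right _ _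
  refine ⟨B, C, fun N hN A a0 haA => ?_⟩
  have hN3 : (3 : ℝ) ≤ N := by exact_mod_cast hN
  have hNpos : (0 : ℝ) < N := by linarith
  have hlog : 1 ≤ Real.log N := by
    rw [Real.le_log_iff_exp_le hNpos]
    have := Real.exp_one_lt_d9
    linarith
  have hlog0 : 0 < Real.log N := by linarith
  have hA0 : (0 : ℝ) ≤ A := Nat.cast_nonneg _
  have hNU : 0 < (N : ℝ) / Real.log N ^ U := by positivity
  have hNα : (N : ℝ) ^ α ≤ N := by
    calc (N : ℝ) ^ α ≤ (N : ℝ) ^ (1 : ℝ) :=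
          Real.rpow_le_rpow_of_exponent_le (by linarith) hα.le
      _ = N := Real.rpow_one _
  -- small N
  have hsmall : N < x0 → ∀ S : ℕ → Finset ℕ, (∀ a, ∀ d ∈ S a, 1 ≤ d ∧ d ≤ 2 * N) →
      (∀ a, ((S a).card : ℝ) ≤ N) →
      ∑ a ∈ Ioc a0 (a0 + A), ∑ d ∈ S a, κ ^ d.primeFactors.card * errMax N d a ≤
        C * (A * N / Real.log N ^ U) := by
    intro hlt S hS hSc
    have hle : (N : ℝ) ≤ x0 := by exact_mod_cast hlt.le
    have hl : Real.log N ≤ Real.log x0 := Real.log_le_log hNpos hle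
    have h5 : κ ^ (2 * N) * (2 * N) * Real.log N ^ U ≤ C := by
      refine le_trans ?_ hC2
      have : κ ^ (2 * N) ≤ κ ^ (2 * x0) := pow_le_pow_right₀ hκ (by omega)
      gcongr
    have h6 : ∀ a ∈ Ioc a0 (a0 + A), ∑ d ∈ S a, κ ^ d.primeFactors.card * errMax N d a ≤
        N * (κ ^ (2 * N) * (2 * N)) := by
      intro a _
      calc ∑ d ∈ S a, κ ^ d.primeFactors.card * errMax N d a ≤
            ∑ d ∈ S a, κ ^ (2 * N) * (2 * (N : ℝ)) := by
            apply sum_le_sum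
            intro d hd
            obtain ⟨d1, d2⟩ := hS a d hd
            have h7 : κ ^ d.primeFactors.card ≤ κ ^ (2 * N) :=
              pow_le_pow_right₀ hκ (primeFactors_card_le d _ d2)
            exact mul_le_mul h7 (errMax_triv' N d a (by omega) d1) (errMax_nonneg _ _ _)
              (by positivity)
        _ = (S a).card * (κ ^ (2 * N) * (2 * (N : ℝ))) := by rw [sum_const, nsmul_eq_mul]
        _ ≤ N * (κ ^ (2 * N) * (2 * N)) := mul_le_mul_of_nonneg_right (hSc a) (by positivity)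
    refine (sum_le_sum h6).trans ?_
    rw [sum_const, Nat.card_Ioc, nsmul_eq_mul]
    have h2 : ((a0 + A - a0 : ℕ) : ℝ) = A := by
      congr 1; omega
    rw [h2]
    calc (A : ℝ) * (N * (κ ^ (2 * N) * (2 * N))) =
        A * ((κ ^ (2 * N) * (2 * N) * Real.log N ^ U) * (N / Real.log N ^ U)) := by field_simp
      _ ≤ A * (C * (N / Real.log N ^ U)) := by
          apply mul_le_mul_of_nonneg_left _ hA0
          exact mul_le_mul_of_nonneg_right h5 hNU.le
      _ = C * (A * N / Real.log N ^ U) := by ring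
  have hfl : ((⌊(N : ℝ) ^ α⌋₊ : ℕ) : ℝ) ≤ (N : ℝ) ^ α := Nat.floor_le (by positivity)
  rcases lt_or_ge N x0 with hlt | hge
  · constructor
    · intro _
      apply hsmall hlt
      · intro a d hd
        rw [mem_filter, mem_Icc] at hd
        refine ⟨hd.1.1, ?_⟩
        have h1 : (d : ℝ) ≤ N := by
          have : (d : ℝ) ≤ (⌊(N : ℝ) ^ α⌋₊ : ℕ) := by exact_mod_cast hd.1.2
          linarith
        have h2 : d ≤ N := by exact_mod_cast h1
        omega
      · intro a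
        have h1 : ((Icc 1 ⌊(N : ℝ) ^ α⌋₊).filter (fun d => a.Coprime d)).card ≤
            ⌊(N : ℝ) ^ α⌋₊ := (card_filter_le _ _).trans (by simp)
        have h2 : (((Icc 1 ⌊(N : ℝ) ^ α⌋₊).filter (fun d => a.Coprime d)).card : ℝ) ≤
            ⌊(N : ℝ) ^ α⌋₊ := by exact_mod_cast h1
        linarith
    · intro D _ hD _
      have hDN : D ≤ N := by
        have : (D : ℝ) ≤ N := hD.trans hNα
        exact_mod_cast this
      apply hsmall hlt
      · intro a d hd
        rw [mem_filter, mem_Ioc] at hd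
        omega
      · intro a
        have h1 : ((Ioc D (2 * D)).filter (fun d => a.Coprime d)).card ≤ N := by
          refine (card_filter_le _ _).trans ?_
          rw [Nat.card_Ioc]
          omega
        exact_mod_cast h1
  · have hN1 : N1 ≤ N := by
      refine le_trans ?_ hge
      rw [hx0]
      exact (le_max_left _ _).trans (le_max_left _ _)
    have hN2 : N2 ≤ N := by
      refine le_trans ?_ hge
      rw [hx0]
      exact (le_max_right _ _).trans (le_max_left _ _)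
    have hYN : Y ≤ N := (Nat.le_ceil Y).trans (by
      have : ⌈Y⌉₊ ≤ N := by
        refine le_trans ?_ hge
        rw [hx0]
        exact le_max_right _ _
      exact_mod_cast this)
    obtain ⟨e1, e2, e3, e5, e6⟩ := hY N hYN
    rw [pow_zero, mul_one] at e3
    have hC1p : 0 ≤ (2 : ℝ) ^ (U2 + 1) * |C1| := by positivity
    set ℓ := Real.log (N : ℝ) with hℓ
    have hℓ4 : 4 ≤ ℓ := by linarith
    -- facts on grid points
    have hgrid : ∀ j ∈ Icc 1 (JJ K N), (3 ≤ gp N (JJ K N) j) ∧ a0 + A ≤ gp N (JJ K N) j ∧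
        (N : ℝ) ^ α ≤ ((gp N (JJ K N) j : ℕ) : ℝ) ^ (1 - δ) ∧
        ((gp N (JJ K N) j : ℕ) : ℝ) ≤ N ∧ ℓ / 2 ≤ Real.log (gp N (JJ K N) j : ℕ) ∧
        Real.log (gp N (JJ K N) j : ℕ) ≤ ℓ := by
      intro j hj
      obtain ⟨g1, g2⟩ := hgp N hN2 j hj
      set y := gp N (JJ K N) j with hy
      have hyN : (y : ℝ) ≤ N := by exact_mod_cast g2
      have hy1 : (N : ℝ) ^ (1 - δ) ≤ y := by
        refine le_trans ?_ g1
        rw [le_div_iff₀ (by positivity)]
        calc (N : ℝ) ^ (1 - δ) * (4 * ℓ ^ K) ≤ (N : ℝ) ^ (1 - δ) * (N : ℝ) ^ δ := by gcongr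
          _ = N := by
              rw [← Real.rpow_add hNpos]; simp
      have hyh : (N : ℝ) ^ (1 / 2 : ℝ) ≤ y := by
        refine le_trans ?_ hy1
        exact Real.rpow_le_rpow_of_exponent_le (by linarith) (by linarith)
      have hy3 : (3 : ℝ) ≤ y := by
        refine le_trans ?_ hyh
        have h9 : (9 : ℝ) ^ (1 / 2 : ℝ) = 3 := by
          rw [← Real.sqrt_eq_rpow, show (9 : ℝ) = 3 ^ 2 by norm_num]
          exact Real.sqrt_sq (by norm_num)
        rw [← h9]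
        exact Real.rpow_le_rpow (by norm_num) e6 (by norm_num)
      have hy0 : (0 : ℝ) < y := by linarith
      refine ⟨by exact_mod_cast hy3, ?_, ?_, hyN, ?_, Real.log_le_log hy0 hyN⟩
      · have h1 : (N : ℝ) / ℓ ^ B ≤ N / (4 * ℓ ^ K) := by
          apply div_le_div_of_nonneg_left hNpos.le (by positivity)
          have h2 : ℓ ^ (K + 1) ≤ ℓ ^ B := pow_le_pow_right₀ (by linarith) (by omega)
          calc 4 * ℓ ^ K ≤ ℓ * ℓ ^ K := mul_le_mul_of_nonneg_right hℓ4 (by positivity)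
            _ = ℓ ^ (K + 1) := by ring
            _ ≤ ℓ ^ B := h2
        have h2 : ((a0 + A : ℕ) : ℝ) ≤ y := (haA.trans h1).trans g1
        exact_mod_cast h2
      · calc (N : ℝ) ^ α ≤ (N : ℝ) ^ ((1 - δ) * (1 - δ)) := by
              apply Real.rpow_le_rpow_of_exponent_le (by linarith)
              nlinarith
          _ = ((N : ℝ) ^ (1 - δ)) ^ (1 - δ) := by rw [Real.rpow_mul hNpos.le]
          _ ≤ (y : ℝ) ^ (1 - δ) := Real.rpow_le_rpow (by positivity) hy1 (by linarith)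
      · have h1 := Real.log_le_log (by positivity) hyh
        rw [Real.log_rpow hNpos] at h1
        linarith
    -- transfer of the bound
    have hbd : ∀ y : ℕ, (y : ℝ) ≤ N → ℓ / 2 ≤ Real.log y →
        C1 * (A * y / Real.log y ^ (U2 + 1)) ≤ A * N / ℓ ^ U2 := by
      intro y hyN hly
      have hly0 : 0 < Real.log (y : ℝ) := by linarith
      have h3 : (ℓ / 2) ^ (U2 + 1) ≤ Real.log (y : ℝ) ^ (U2 + 1) := by gcongr
      have h4 : A * y / Real.log (y : ℝ) ^ (U2 + 1) ≤ A * N / (ℓ / 2) ^ (U2 + 1) := by gcongr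
      have h5 : A * N / (ℓ / 2) ^ (U2 + 1) = 2 ^ (U2 + 1) * (A * N / ℓ ^ (U2 + 1)) := by
        rw [div_pow]; field_simp
      have h6 : A * N / ℓ ^ U2 = ℓ * (A * N / ℓ ^ (U2 + 1)) := by
        rw [pow_succ]; field_simp
      have h7 : 0 ≤ A * N / ℓ ^ (U2 + 1) := by positivity
      have h8 : 0 ≤ A * y / Real.log (y : ℝ) ^ (U2 + 1) := by positivity
      calc C1 * (A * y / Real.log y ^ (U2 + 1)) ≤ |C1| * (A * y / Real.log y ^ (U2 + 1)) :=
            mul_le_mul_of_nonneg_right (le_abs_self _) h8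
        _ ≤ |C1| * (2 ^ (U2 + 1) * (A * N / ℓ ^ (U2 + 1))) := by
            rw [← h5]
            exact mul_le_mul_of_nonneg_left h4 (abs_nonneg _)
        _ = (2 ^ (U2 + 1) * |C1|) * (A * N / ℓ ^ (U2 + 1)) := by ring
        _ ≤ ℓ * (A * N / ℓ ^ (U2 + 1)) := by
            apply mul_le_mul_of_nonneg_right _ h7
            linarith
        _ = A * N / ℓ ^ U2 := h6.symm
    have hBB : ℓ ^ B1 ≤ ℓ ^ B := pow_le_pow_right₀ (by linarith) (by omega)
    have hfinish : ∀ S : ℕ → Finset ℕ, (∀ a, S a ⊆ Icc 1 N) →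
        (∀ j ∈ Icc 1 (JJ K N), ∑ a ∈ Ioc a0 (a0 + A), ∑ d ∈ S a,
          |piAP (gp N (JJ K N) j) d a - (∫ t in (2 : ℝ)..(gp N (JJ K N) j : ℕ), 1 / Real.log t) /
            (Nat.totient d : ℝ)| ≤ A * N / ℓ ^ U2) →
        ∑ a ∈ Ioc a0 (a0 + A), ∑ d ∈ S a, κ ^ d.primeFactors.card * errMax N d a ≤
          C * (A * N / ℓ ^ U) := by
      intro S hS h
      refine (hlarge N hN1 A a0 S hS h).trans ?_
      have : 0 ≤ A * N / ℓ ^ U := by positivity
      calc A * N / ℓ ^ U = 1 * (A * N / ℓ ^ U) := (one_mul _).symm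
        _ ≤ C * (A * N / ℓ ^ U) := mul_le_mul_of_nonneg_right hC1 this
    constructor
    · intro hA
      apply hfinish
      · intro a d hd
        rw [mem_filter, mem_Icc] at hd
        rw [mem_Icc]
        refine ⟨hd.1.1, ?_⟩
        have h1 : (d : ℝ) ≤ N := by
          have : (d : ℝ) ≤ (⌊(N : ℝ) ^ α⌋₊ : ℕ) := by exact_mod_cast hd.1.2
          linarith
        exact_mod_cast h1
      · intro j hj
        obtain ⟨q1, q2, q3, q4, q5, q6⟩ := hgrid j hj
        set y := gp N (JJ K N) j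
        have hy3 : (3 : ℝ) ≤ y := by exact_mod_cast q1
        have hly0 : 0 < Real.log (y : ℝ) := by linarith
        have h1 := (hfin y q1 A a0 q2).1 (by
          calc (y : ℝ) ^ (1 / 3 : ℝ) * Real.log y ^ B1 ≤ (N : ℝ) ^ (1 / 3 : ℝ) * ℓ ^ B := by
                apply mul_le_mul
                · exact Real.rpow_le_rpow (by positivity) q4 (by norm_num)
                · refine le_trans ?_ hBB
                  gcongr
                · positivity
                · positivity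
            _ ≤ A := hA)
        refine le_trans ?_ (h1.trans (hbd y q4 q5))
        apply sum_le_sum
        intro a _
        apply sum_le_sum_of_subset_of_nonneg
        · apply filter_subset_filter
          apply Icc_subset_Icc_right
          exact Nat.floor_le_floor q3
        · intro d _ _
          exact abs_nonneg _
    · intro D hD1 hD2 hD3
      have h2D : 2 * D ≤ N := by
        have h1 : (2 : ℝ) * D ≤ N := by
          have h2 : (N : ℝ) ^ α * (N : ℝ) ^ δ ≤ N := by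
            rw [← Real.rpow_add hNpos]
            calc (N : ℝ) ^ (α + δ) ≤ (N : ℝ) ^ (1 : ℝ) := by
                  apply Real.rpow_le_rpow_of_exponent_le (by linarith)
                  linarith
              _ = N := Real.rpow_one _
          have h3 : 0 ≤ (N : ℝ) ^ α := by positivity
          nlinarith
        exact_mod_cast h1
      apply hfinish
      · intro a d hd
        rw [mem_filter, mem_Ioc] at hd
        rw [mem_Icc]
        omega
      · intro j hj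
        obtain ⟨q1, q2, q3, q4, q5, q6⟩ := hgrid j hj
        set y := gp N (JJ K N) j
        have hy3 : (3 : ℝ) ≤ y := by exact_mod_cast q1
        have hly0 : 0 < Real.log (y : ℝ) := by linarith
        have h1 := (hfin y q1 A a0 q2).2 D (by
          refine le_trans ?_ hD1
          exact Real.rpow_le_rpow (by positivity) q4 (by norm_num)) (hD2.trans q3) (by
          calc (y : ℝ) * Real.log y ^ B1 ≤ N * ℓ ^ B := by
                apply mul_le_mul q4
                · refine le_trans ?_ hBB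
                  gcongr
                · positivity
                · positivity
            _ ≤ A * D := hD3)
        exact h1.trans (hbd y q4 q5)

end Pool.Agent.H300R2.WEH
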