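import Pool.Agent.H442R2.EHI.FinalOf
import Pool.Agent.H343R2.EH.Primes
import Pool.Agent.H398R2.BA1

/-!
Maximum over `y ≤ N` and weights `κ^ν(d)` from bounds at single points.
-/

set_option autoImplicit false

namespace Pool.Agent.H300R2.WEH

open Finset
open Pool.Agent.H442R2.EHI

/-- the number of primes `p ≤ y` with `p ≡ l (mod d)` -/
noncomputable def piR (y : ℝ) (d l : ℕ) : ℕ :=
  ((Icc 1 ⌊y⌋₊).filter (fun p => p.Prime ∧ p ≡ l [MOD d])).card

/-- `|π(y; d, l) - li(y) / φ(d)|` -/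
noncomputable def err (y : ℝ) (d l : ℕ) : ℝ :=
  |(piR y d l : ℝ) - (∫ t in (2 : ℝ)..y, 1 / Real.log t) / (Nat.totient d : ℝ)|

/-- the maximum of `err y d l` over real `y` with `2 ≤ y ≤ N` -/
noncomputable def errMax (N d l : ℕ) : ℝ := ⨆ y : Set.Icc (2 : ℝ) N, err y d l

/-- error with the sum `lis` at an integer -/
noncomputable def eL (n d l : ℕ) : ℝ := |piAP n d l - lis n / (Nat.totient d : ℝ)|

lemma eL_nonneg (n d l : ℕ) : 0 ≤ eL n d l := abs_nonneg _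

lemma err_nonneg (y : ℝ) (d l : ℕ) : 0 ≤ err y d l := abs_nonneg _

lemma errMax_nonneg (N d l : ℕ) : 0 ≤ errMax N d l :=
  Real.iSup_nonneg fun y => err_nonneg _ _ _

lemma piR_eq (y : ℝ) (d l : ℕ) : (piR y d l : ℝ) = piAP ⌊y⌋₊ d l := rfl

lemma integral_step (y : ℝ) (hy : 2 ≤ y) :
    |(∫ t in (2 : ℝ)..y, 1 / Real.log t) - ∫ t in (2 : ℝ)..(⌊y⌋₊ : ℝ), 1 / Real.log t| ≤ 2 := by
  have hf : (⌊y⌋₊ : ℝ) ≤ y := Nat.floor_le (by linarith)
  have hf1 : y < (⌊y⌋₊ : ℝ) + 1 := Nat.lt_floor_add_one y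
  have hf2 : (2 : ℝ) ≤ (⌊y⌋₊ : ℝ) := by
    have : 2 ≤ ⌊y⌋₊ := Nat.le_floor (by exact_mod_cast hy)
    exact_mod_cast this
  have hint : ∀ a b : ℝ, 2 ≤ a → 2 ≤ b → IntervalIntegrable (fun t => 1 / Real.log t)
      MeasureTheory.volume a b := by
    intro a b ha hb
    apply ContinuousOn.intervalIntegrable
    intro t ht
    have ht2 : 2 ≤ t := by
      have := ht.1
      exact (le_min ha hb).trans this
    have hl : Real.log t ≠ 0 := (Real.log_pos (by linarith)).ne'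
    have h1 : ContinuousAt (fun t => 1 / Real.log t) t :=
      continuousAt_const.div (Real.continuousAt_log (by linarith)) hl
    exact h1.continuousWithinAt
  rw [intervalIntegral.integral_interval_sub_left (hint 2 y le_rfl hy) (hint 2 _ le_rfl hf2)]
  have h := intervalIntegral.norm_integral_le_of_norm_le_const (a := (⌊y⌋₊ : ℝ)) (b := y)
    (f := fun t => 1 / Real.log t) (C := 2) (by
      intro t ht
      rw [Set.uIoc_of_le hf] at ht
      have ht2 : 2 ≤ t := hf2.trans ht.1.le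
      have h3 : Real.log 2 ≤ Real.log t := Real.log_le_log (by norm_num) ht2
      have := Real.log_two_gt_d9
      rw [Real.norm_eq_abs, abs_of_pos (by
        have : 0 < Real.log t := by linarith
        positivity), div_le_iff₀ (by linarith)]
      linarith)
  rw [Real.norm_eq_abs] at h
  refine h.trans ?_
  rw [abs_of_nonneg (by linarith)]
  linarith

lemma err_le (y : ℝ) (hy : 2 ≤ y) (d l : ℕ) (hd : 1 ≤ d) :
    err y d l ≤ eL ⌊y⌋₊ d l + 4 / (Nat.totient d : ℝ) := by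
  have hφ : (1 : ℝ) ≤ Nat.totient d := by exact_mod_cast Nat.totient_pos.mpr (by omega)
  have hn2 : 2 ≤ ⌊y⌋₊ := Nat.le_floor (by exact_mod_cast hy)
  have h1 := FinalOf.lis_sub ⌊y⌋₊ hn2
  have h2 := integral_step y hy
  unfold err eL
  rw [piR_eq]
  set I := ∫ t in (2 : ℝ)..y, 1 / Real.log t
  set I' := ∫ t in (2 : ℝ)..(⌊y⌋₊ : ℝ), 1 / Real.log t
  have e : piAP ⌊y⌋₊ d l - I / (Nat.totient d : ℝ) =
      (piAP ⌊y⌋₊ d l - lis ⌊y⌋₊ / (Nat.totient d : ℝ)) +
      (lis ⌊y⌋₊ - I) / (Nat.totient d : ℝ) := by ring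
  rw [e]
  refine (abs_add_le _ _).trans ?_
  have h3 : |lis ⌊y⌋₊ - I| ≤ 4 := by
    have e2 : lis ⌊y⌋₊ - I = (lis ⌊y⌋₊ - I') - (I - I') := by ring
    rw [e2]
    refine (abs_sub _ _).trans ?_
    linarith
  rw [abs_div, abs_of_pos (by linarith : (0:ℝ) < Nat.totient d)]
  have h4 : |lis ⌊y⌋₊ - I| / (Nat.totient d : ℝ) ≤ 4 / (Nat.totient d : ℝ) := by gcongr
  linarith

lemma piAP_mono {m n : ℕ} (h : m ≤ n) (d l : ℕ) : piAP m d l ≤ piAP n d l := by
  unfold piAP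
  have : ((Icc 1 m).filter (fun p => p.Prime ∧ p ≡ l [MOD d])).card ≤
      ((Icc 1 n).filter (fun p => p.Prime ∧ p ≡ l [MOD d])).card :=
    card_le_card (filter_subset_filter _ (Icc_subset_Icc_right h))
  exact_mod_cast this

lemma lis_diff {m n : ℕ} (h : m ≤ n) : lis m ≤ lis n ∧ lis n - lis m ≤ 2 * (n - m : ℝ) := by
  unfold lis
  have hsub : Icc 2 m ⊆ Icc 2 n := Icc_subset_Icc_right h
  rw [← sum_sdiff hsub]
  have hterm : ∀ k ∈ Icc 2 n, 0 ≤ 1 / Real.log (k : ℝ) ∧ 1 / Real.log (k : ℝ) ≤ 2 := by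
    intro k hk
    rw [mem_Icc] at hk
    have h2 : (2 : ℝ) ≤ k := by exact_mod_cast hk.1
    have h3 : Real.log 2 ≤ Real.log k := Real.log_le_log (by norm_num) h2
    have := Real.log_two_gt_d9
    constructor
    · have : 0 < Real.log k := by linarith
      positivity
    · rw [div_le_iff₀ (by linarith)]
      linarith
  have h0 : 0 ≤ ∑ x ∈ Icc 2 n \ Icc 2 m, 1 / Real.log (x : ℝ) :=
    sum_nonneg fun k hk => (hterm k (mem_sdiff.1 hk).1).1
  have h1 : ∑ x ∈ Icc 2 n \ Icc 2 m, 1 / Real.log (x : ℝ) ≤ 2 * (n - m : ℝ) := by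
    calc ∑ x ∈ Icc 2 n \ Icc 2 m, 1 / Real.log (x : ℝ) ≤ ∑ x ∈ Icc 2 n \ Icc 2 m, (2 : ℝ) :=
          sum_le_sum fun k hk => (hterm k (mem_sdiff.1 hk).1).2
      _ = ((Icc 2 n \ Icc 2 m).card : ℝ) * 2 := by rw [sum_const, nsmul_eq_mul]
      _ ≤ ((n - m : ℕ) : ℝ) * 2 := by
          have hc : (Icc 2 n \ Icc 2 m).card ≤ n - m := by
            have : Icc 2 n \ Icc 2 m ⊆ Ioc m n := by
              intro k hk
              rw [mem_sdiff, mem_Icc, mem_Icc] at hk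
              rw [mem_Ioc]
              omega
            calc (Icc 2 n \ Icc 2 m).card ≤ (Ioc m n).card := card_le_card this
              _ = n - m := Nat.card_Ioc m n
          have : ((Icc 2 n \ Icc 2 m).card : ℝ) ≤ ((n - m : ℕ) : ℝ) := by exact_mod_cast hc
          linarith
      _ = 2 * (n - m : ℝ) := by rw [Nat.cast_sub h]; ring
  constructor <;> linarith

/-- grid points -/
def gp (N J i : ℕ) : ℕ := i * N / J

lemma gp_last (N J : ℕ) (hJ : 1 ≤ J) : gp N J J = N := by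
  unfold gp
  exact Nat.mul_div_cancel_left N (by omega)

lemma gp_step (N J i : ℕ) (hJ : 1 ≤ J) :
    gp N J i ≤ gp N J (i + 1) ∧ ((gp N J (i + 1) : ℕ) : ℝ) - gp N J i ≤ N / J + 1 := by
  have hJr : (0 : ℝ) < J := by exact_mod_cast hJ
  constructor
  · unfold gp
    exact Nat.div_le_div_right (Nat.mul_le_mul_right N (by omega))
  · unfold gp
    have h1 : (((i + 1) * N / J : ℕ) : ℝ) ≤ ((i + 1) * N : ℕ) / (J : ℝ) := Nat.cast_div_le
    have h2 : ((i * N : ℕ) : ℝ) / J < ((i * N / J : ℕ) : ℝ) + 1 := by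
      rw [div_lt_iff₀ hJr]
      have := Nat.lt_div_mul_add (a := i * N) (b := J) (by omega)
      have h3 : i * N < i * N / J * J + J := this
      have h4 : ((i * N : ℕ) : ℝ) < ((i * N / J * J + J : ℕ) : ℝ) := by exact_mod_cast h3
      push_cast at h4 ⊢
      linarith
    have h5 : (((i + 1) * N : ℕ) : ℝ) / (J : ℝ) = ((i * N : ℕ) : ℝ) / J + N / J := by
      push_cast
      ring
    rw [h5] at h1
    linarith

lemma exists_grid (N J n : ℕ) (hJ : 1 ≤ J) (hn : n ≤ N) :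
    ∃ i < J, gp N J i ≤ n ∧ n ≤ gp N J (i + 1) := by
  classical
  have hex : ∃ i : ℕ, n ≤ gp N J (i + 1) := ⟨J - 1, by
    rw [Nat.sub_add_cancel hJ, gp_last N J hJ]
    exact hn⟩
  refine ⟨Nat.find hex, ?_, ?_, Nat.find_spec hex⟩
  · have : Nat.find hex ≤ J - 1 := Nat.find_min' hex (by
      rw [Nat.sub_add_cancel hJ, gp_last N J hJ]
      exact hn)
    omega
  · rcases Nat.eq_zero_or_pos (Nat.find hex) with h | h
    · rw [h]
      simp [gp]
    · have h1 := Nat.find_min hex (m := Nat.find hex - 1) (by omega)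
      rw [Nat.sub_add_cancel h] at h1
      omega

lemma eL_grid (N J n d l : ℕ) (hJ : 1 ≤ J) (hn : n ≤ N) (hd : 1 ≤ d) :
    eL n d l ≤ ∑ i ∈ Icc 1 J, eL (gp N J i) d l +
      2 * ((N : ℝ) / J + 1) / (Nat.totient d : ℝ) := by
  have hφ : (1 : ℝ) ≤ Nat.totient d := by exact_mod_cast Nat.totient_pos.mpr (by omega)
  have hφ0 : (0 : ℝ) < Nat.totient d := by linarith
  obtain ⟨i, hi, hi1, hi2⟩ := exists_grid N J n hJ hn
  obtain ⟨s1, s2⟩ := gp_step N J i hJ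
  set u := gp N J i
  set v := gp N J (i + 1)
  have hsum : ∀ j ∈ Icc 1 J, eL (gp N J j) d l ≤ ∑ i ∈ Icc 1 J, eL (gp N J i) d l := by
    intro j hj
    exact single_le_sum (fun k _ => eL_nonneg (gp N J k) d l) hj
  have hsum0 : 0 ≤ ∑ i ∈ Icc 1 J, eL (gp N J i) d l := sum_nonneg fun k _ => eL_nonneg _ _ _
  have hv : eL v d l ≤ ∑ i ∈ Icc 1 J, eL (gp N J i) d l := hsum (i + 1) (by
    rw [mem_Icc]; omega)
  have hu : eL u d l ≤ ∑ i ∈ Icc 1 J, eL (gp N J i) d l := by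
    rcases Nat.eq_zero_or_pos i with h | h
    · have hu0 : u = 0 := by
        simp only [u, h, gp]
        simp
      rw [hu0]
      have : eL 0 d l = 0 := by
        unfold eL piAP lis
        simp
      rw [this]
      exact hsum0
    · exact hsum i (by rw [mem_Icc]; omega)
  have p1 := piAP_mono hi1 d l
  have p2 := piAP_mono hi2 d l
  obtain ⟨l1, l2⟩ := lis_diff hi1
  obtain ⟨l3, l4⟩ := lis_diff hi2
  have hu1 : (u : ℝ) ≤ n := by exact_mod_cast hi1
  have hv1 : (n : ℝ) ≤ v := by exact_mod_cast hi2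
  have q1 : lis v / (Nat.totient d : ℝ) - lis n / (Nat.totient d : ℝ) ≤
      2 * ((N : ℝ) / J + 1) / (Nat.totient d : ℝ) := by
    rw [← sub_div]
    gcongr
    linarith
  have q2 : lis n / (Nat.totient d : ℝ) - lis u / (Nat.totient d : ℝ) ≤
      2 * ((N : ℝ) / J + 1) / (Nat.totient d : ℝ) := by
    rw [← sub_div]
    gcongr
    linarith
  have r1 : piAP v d l - lis v / (Nat.totient d : ℝ) ≤ eL v d l := le_abs_self _
  have r2 : -(piAP u d l - lis u / (Nat.totient d : ℝ)) ≤ eL u d l := neg_le_abs _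
  unfold eL at *
  rw [abs_le]
  constructor <;> linarith

/-- **pointwise bound of the maximum over `y`** -/
lemma errMax_le (N J d l : ℕ) (hJ : 1 ≤ J) (hN : 2 ≤ N) (hd : 1 ≤ d) :
    errMax N d l ≤ ∑ i ∈ Icc 1 J, eL (gp N J i) d l +
      (2 * ((N : ℝ) / J + 1) + 4) * (1 / (Nat.totient d : ℝ)) := by
  have hne : Nonempty (Set.Icc (2 : ℝ) N) := ⟨⟨2, le_rfl, by exact_mod_cast hN⟩⟩
  apply ciSup_le
  rintro ⟨y, hy2, hyN⟩
  have h1 := err_le y hy2 d l hd
  have hn : ⌊y⌋₊ ≤ N := by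
    have := Nat.floor_le_floor hyN
    rwa [Nat.floor_natCast] at this
  have h2 := eL_grid N J ⌊y⌋₊ d l hJ hn hd
  have e : (2 * ((N : ℝ) / J + 1) + 4) * (1 / (Nat.totient d : ℝ)) =
      2 * ((N : ℝ) / J + 1) / (Nat.totient d : ℝ) + 4 / (Nat.totient d : ℝ) := by ring
  rw [e]
  simp only
  linarith

/-- the trivial bound -/
lemma errMax_triv (N d l : ℕ) (hN : 2 ≤ N) (hd : 1 ≤ d) (hdN : d ≤ N) :
    errMax N d l ≤ 2 * N / (Nat.totient d : ℝ) := by
  have hφ : (1 : ℝ) ≤ Nat.totient d := by exact_mod_cast Nat.totient_pos.mpr (by omega)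
  have hφ0 : (0 : ℝ) < Nat.totient d := by linarith
  have hφd : (Nat.totient d : ℝ) ≤ d := by exact_mod_cast Nat.totient_le d
  have hNr : (0 : ℝ) < N := by
    have : 0 < N := by omega
    exact_mod_cast this
  have hdr : (0 : ℝ) < d := by exact_mod_cast hd
  have hdNr : (d : ℝ) ≤ N := by exact_mod_cast hdN
  have hne : Nonempty (Set.Icc (2 : ℝ) N) := ⟨⟨2, le_rfl, by exact_mod_cast hN⟩⟩
  apply ciSup_le
  rintro ⟨y, hy2, hyN⟩
  simp only
  have hn : ⌊y⌋₊ ≤ N := by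
    have := Nat.floor_le_floor hyN
    rwa [Nat.floor_natCast] at this
  have hnr : ((⌊y⌋₊ : ℕ) : ℝ) ≤ N := by exact_mod_cast hn
  have h1 : (piR y d l : ℝ) ≤ 2 * N / (Nat.totient d : ℝ) := by
    have hc : ((piR y d l : ℕ) : ℝ) ≤ (((Icc 1 ⌊y⌋₊).filter (fun m => m ≡ l [MOD d])).card : ℝ) := by
      unfold piR
      have : ((Icc 1 ⌊y⌋₊).filter (fun p => p.Prime ∧ p ≡ l [MOD d])).card ≤
          ((Icc 1 ⌊y⌋₊).filter (fun m => m ≡ l [MOD d])).card := by
        apply card_le_card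
        intro p hp
        rw [mem_filter] at hp ⊢
        exact ⟨hp.1, hp.2.2⟩
      exact_mod_cast this
    have h2 := H343E.card_mod ⌊y⌋₊ d l hd
    calc (piR y d l : ℝ) ≤ (⌊y⌋₊ : ℝ) / d + 1 := hc.trans h2
      _ ≤ N / d + N / d := by
          apply add_le_add
          · gcongr
          · rw [le_div_iff₀ hdr]; linarith
      _ = 2 * N / d := by ring
      _ ≤ 2 * N / (Nat.totient d : ℝ) := by gcongr
  have h3 : 0 ≤ (∫ t in (2 : ℝ)..y, 1 / Real.log t) := by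
    apply intervalIntegral.integral_nonneg hy2
    intro t ht
    have : 0 < Real.log t := Real.log_pos (by linarith [ht.1])
    positivity
  have h4 : (∫ t in (2 : ℝ)..y, 1 / Real.log t) ≤ 2 * N := by
    have h := intervalIntegral.norm_integral_le_of_norm_le_const (a := (2 : ℝ)) (b := y)
      (f := fun t => 1 / Real.log t) (C := 2) (by
        intro t ht
        rw [Set.uIoc_of_le hy2] at ht
        have h3 : Real.log 2 ≤ Real.log t := Real.log_le_log (by norm_num) ht.1.le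
        have := Real.log_two_gt_d9
        rw [Real.norm_eq_abs, abs_of_pos (by
          have : 0 < Real.log t := by linarith
          positivity), div_le_iff₀ (by linarith)]
        linarith)
    rw [Real.norm_eq_abs, abs_of_nonneg (by linarith : (0:ℝ) ≤ y - 2)] at h
    have := le_abs_self (∫ t in (2 : ℝ)..y, 1 / Real.log t)
    linarith
  have h5 : (∫ t in (2 : ℝ)..y, 1 / Real.log t) / (Nat.totient d : ℝ) ≤
      2 * N / (Nat.totient d : ℝ) := by gcongr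
  have h6 : 0 ≤ (∫ t in (2 : ℝ)..y, 1 / Real.log t) / (Nat.totient d : ℝ) := by positivity
  have h7 : (0 : ℝ) ≤ (piR y d l : ℝ) := Nat.cast_nonneg _
  unfold err
  rw [abs_le]
  constructor <;> linarith

/-- Cauchy-Schwarz for the weights -/
lemma weights {ι : Type*} (P : Finset ι) (w E : ι → ℝ) (T S V : ℝ) 
    (hE : ∀ i ∈ P, 0 ≤ E i) (h1 : ∑ i ∈ P, w i ^ 2 * E i ≤ T) (h2 : ∑ i ∈ P, E i ≤ S)
    (hV : 0 ≤ V) (h3 : T * S ≤ V ^ 2) : ∑ i ∈ P, w i * E i ≤ V := by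
  have hcs := sum_mul_sq_le_sq_mul_sq P (fun i => w i * Real.sqrt (E i)) (fun i => Real.sqrt (E i))
  have e1 : ∑ i ∈ P, w i * Real.sqrt (E i) * Real.sqrt (E i) = ∑ i ∈ P, w i * E i := by
    apply sum_congr rfl
    intro i hi
    rw [mul_assoc, Real.mul_self_sqrt (hE i hi)]
  have e2 : ∑ i ∈ P, (w i * Real.sqrt (E i)) ^ 2 = ∑ i ∈ P, w i ^ 2 * E i := by
    apply sum_congr rfl
    intro i hi
    rw [mul_pow, Real.sq_sqrt (hE i hi)]
  have e3 : ∑ i ∈ P, Real.sqrt (E i) ^ 2 = ∑ i ∈ P, E i := by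
    apply sum_congr rfl
    intro i hi
    rw [Real.sq_sqrt (hE i hi)]
  rw [e1, e2, e3] at hcs
  have hE0 : 0 ≤ ∑ i ∈ P, E i := sum_nonneg hE
  have hT0 : 0 ≤ ∑ i ∈ P, w i ^ 2 * E i := sum_nonneg fun i hi => mul_nonneg (sq_nonneg _) (hE i hi)
  have h4 : (∑ i ∈ P, w i * E i) ^ 2 ≤ V ^ 2 := by
    calc (∑ i ∈ P, w i * E i) ^ 2 ≤ (∑ i ∈ P, w i ^ 2 * E i) * ∑ i ∈ P, E i := hcs
      _ ≤ T * S := mul_le_mul h1 h2 hE0 (hT0.trans h1)
      _ ≤ V ^ 2 := h3
  exact abs_le_of_sq_le_sq' h4 hV |>.2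

/-- logarithmic bound of `∑ κ^ν(d)/φ(d)` -/
lemma sum_log (κ : ℝ) (hκ : 1 ≤ κ) : ∃ c : ℕ, ∀ N : ℕ, 8 ≤ N →
    ∑ d ∈ Icc 1 N, κ ^ d.primeFactors.card / (Nat.totient d : ℝ) ≤ Real.log N ^ c := by
  obtain ⟨k, hk⟩ := Pool.Agent.H398R2.BV.sum_pow_omega_div_totient κ hκ
  refine ⟨2 * 2 ^ k, fun N hN => (hk N).trans ?_⟩
  have h8 : (8 : ℝ) ≤ N := by exact_mod_cast hN
  have hl : 2 ≤ Real.log N := by
    have h1 : Real.log 8 ≤ Real.log N := Real.log_le_log (by norm_num) h8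
    have h2 : Real.log 8 = 3 * Real.log 2 := by
      rw [show (8 : ℝ) = 2 ^ 3 by norm_num, Real.log_pow]; norm_num
    have := Real.log_two_gt_d9
    linarith
  rw [pow_mul]
  have h3 : 1 + Real.log N ≤ Real.log N ^ 2 := by nlinarith
  have h4 : 0 ≤ 1 + Real.log N := by linarith
  exact pow_le_pow_left₀ h4 h3 _

/-- number of grid points -/
noncomputable def JJ (K N : ℕ) : ℕ := ⌈Real.log N ^ K⌉₊

lemma JJ_facts (K N : ℕ) (hl : 1 ≤ Real.log N) :
    1 ≤ JJ K N ∧ Real.log N ^ K ≤ JJ K N ∧ (JJ K N : ℝ) ≤ 2 * Real.log N ^ K := by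
  have h1 : (1 : ℝ) ≤ Real.log N ^ K := one_le_pow₀ hl
  have h2 : Real.log N ^ K ≤ JJ K N := Nat.le_ceil _
  have h3 : (JJ K N : ℝ) < Real.log N ^ K + 1 := Nat.ceil_lt_add_one (by positivity)
  refine ⟨?_, h2, by linarith⟩
  have : (1 : ℝ) ≤ JJ K N := h1.trans h2
  exact_mod_cast this

lemma gp_facts (K : ℕ) : ∃ N0 : ℕ, ∀ N : ℕ, N0 ≤ N → ∀ j ∈ Icc 1 (JJ K N),
    (N : ℝ) / (4 * Real.log N ^ K) ≤ gp N (JJ K N) j ∧ gp N (JJ K N) j ≤ N := by
  have hev1 := FinalOf.ev K 1 one_pos 4 (by norm_num)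
  have hev5 : ∀ᶠ X : ℝ in Filter.atTop, (3 : ℝ) ≤ Real.log X :=
    Real.tendsto_log_atTop.eventually (Filter.eventually_ge_atTop _)
  have hev6 : ∀ᶠ X : ℝ in Filter.atTop, (3 : ℝ) ≤ X := Filter.eventually_ge_atTop _
  obtain ⟨Y, hY⟩ := Filter.eventually_atTop.mp (hev1.and (hev5.and hev6))
  refine ⟨⌈Y⌉₊, fun N hN j hj => ?_⟩
  obtain ⟨e1, e2, e3⟩ := hY N ((Nat.le_ceil Y).trans (by exact_mod_cast hN))
  rw [Real.rpow_one] at e1
  obtain ⟨j1, j2, j3⟩ := JJ_facts K N (by linarith)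
  set J := JJ K N
  rw [mem_Icc] at hj
  have hL : 0 < Real.log N ^ K := by
    have : 0 < Real.log (N : ℝ) := by linarith
    positivity
  have hJr : (0 : ℝ) < J := by exact_mod_cast j1
  constructor
  · have h1 : gp N J 1 ≤ gp N J j := by
      unfold gp
      exact Nat.div_le_div_right (Nat.mul_le_mul_right N hj.1)
    have h2 : (N : ℝ) / J < (gp N J 1 : ℝ) + 1 := by
      unfold gp
      rw [div_lt_iff₀ hJr, one_mul]
      have := Nat.lt_div_mul_add (a := N) (b := J) (by omega)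
      have h3 : N < N / J * J + J := this
      have h4 : (N : ℝ) < ((N / J * J + J : ℕ) : ℝ) := by exact_mod_cast h3
      push_cast at h4 ⊢
      linarith
    have h5 : (N : ℝ) / (2 * Real.log N ^ K) ≤ N / J := by gcongr
    have h6 : (gp N J 1 : ℝ) ≤ gp N J j := by exact_mod_cast h1
    have h7 : (N : ℝ) / (2 * Real.log N ^ K) = 2 * ((N : ℝ) / (4 * Real.log N ^ K)) := by
      field_simp
      ring
    have h8 : (1 : ℝ) ≤ (N : ℝ) / (4 * Real.log N ^ K) := by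
      rw [le_div_iff₀ (by positivity)]
      linarith
    linarith
  · unfold gp
    calc j * N / J ≤ J * N / J := Nat.div_le_div_right (Nat.mul_le_mul_right N hj.2)
      _ = N := Nat.mul_div_cancel_left N (by omega)

/-- **upgrade to the maximum over `y`** -/
theorem upMax (c1 U : ℕ) : ∃ (U1 K N0 : ℕ), ∀ N : ℕ, N0 ≤ N → ∀ {ι : Type} (P : Finset ι)
    (d l : ι → ℕ) (A : ℝ), 0 ≤ A → (∀ i ∈ P, 1 ≤ d i) →
    ∑ i ∈ P, 1 / (Nat.totient (d i) : ℝ) ≤ A * Real.log N ^ c1 →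
    (∀ j ∈ Icc 1 (JJ K N), ∑ i ∈ P, eL (gp N (JJ K N) j) (d i) (l i) ≤
      A * N / Real.log N ^ U1) →
    ∑ i ∈ P, errMax N (d i) (l i) ≤ A * N / Real.log N ^ U := by
  obtain ⟨K, hK⟩ : ∃ K : ℕ, K = U + c1 + 2 := ⟨_, rfl⟩
  refine ⟨K + U + 2, K, ?_⟩
  have hev1 := FinalOf.ev (U + c1 + 1) 1 one_pos 6 (by norm_num)
  have hev5 : ∀ᶠ X : ℝ in Filter.atTop, (4 : ℝ) ≤ Real.log X :=
    Real.tendsto_log_atTop.eventually (Filter.eventually_ge_atTop _)
  have hev6 : ∀ᶠ X : ℝ in Filter.atTop, (3 : ℝ) ≤ X := Filter.eventually_ge_atTop _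
  obtain ⟨Y, hY⟩ := Filter.eventually_atTop.mp (hev1.and (hev5.and hev6))
  refine ⟨⌈Y⌉₊, fun N hN ι P d l A hA hd h1 h2 => ?_⟩
  obtain ⟨e1, e2, e3⟩ := hY N ((Nat.le_ceil Y).trans (by exact_mod_cast hN))
  rw [Real.rpow_one] at e1
  obtain ⟨j1, j2, j3⟩ := JJ_facts K N (by linarith)
  set J := JJ K N
  set L := Real.log (N : ℝ) with hLdef
  have hL0 : 0 < L := by linarith
  have hN2 : 2 ≤ N := by
    have : (2 : ℝ) ≤ N := by linarith
    exact_mod_cast this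
  have hN0 : (0 : ℝ) < N := by linarith
  have hJr : (0 : ℝ) < J := by exact_mod_cast j1
  have s1 : ∑ i ∈ P, errMax N (d i) (l i) ≤
      ∑ i ∈ P, (∑ j ∈ Icc 1 J, eL (gp N J j) (d i) (l i) +
        (2 * ((N : ℝ) / J + 1) + 4) * (1 / (Nat.totient (d i) : ℝ))) :=
    sum_le_sum fun i hi => errMax_le N J (d i) (l i) j1 hN2 (hd i hi)
  rw [sum_add_distrib, ← mul_sum, sum_comm] at s1
  have s2 : ∑ j ∈ Icc 1 J, ∑ i ∈ P, eL (gp N J j) (d i) (l i) ≤
      J * (A * N / L ^ (K + U + 2)) := by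
    refine (sum_le_sum h2).trans ?_
    rw [sum_const, Nat.card_Icc, nsmul_eq_mul]
    simp
  have s3 : (J : ℝ) * (A * N / L ^ (K + U + 2)) ≤ 2 * (A * N / L ^ (U + 2)) := by
    calc (J : ℝ) * (A * N / L ^ (K + U + 2)) ≤ 2 * L ^ K * (A * N / L ^ (K + U + 2)) := by
          gcongr
      _ = 2 * (A * N / L ^ (U + 2)) := by
          rw [show K + U + 2 = K + (U + 2) by ring, pow_add L K]
          field_simp
  have s4 : (2 * ((N : ℝ) / J + 1) + 4) * ∑ i ∈ P, 1 / (Nat.totient (d i) : ℝ) ≤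
      (2 * ((N : ℝ) / J + 1) + 4) * (A * L ^ c1) := by gcongr
  have s5 : (N : ℝ) / J ≤ N / L ^ K := by gcongr
  have s6 : (2 * ((N : ℝ) / J + 1) + 4) * (A * L ^ c1) ≤ 3 * (A * N / L ^ (U + 1)) := by
    have t1 : (N : ℝ) / L ^ K * L ^ c1 = N / L ^ (U + 2) := by
      rw [hK, show U + c1 + 2 = c1 + (U + 2) by ring, pow_add L c1]
      field_simp
    have t2 : 6 * L ^ c1 ≤ N / L ^ (U + 1) := by
      rw [le_div_iff₀ (by positivity)]
      calc 6 * L ^ c1 * L ^ (U + 1) = 6 * L ^ (U + c1 + 1) := by ring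
        _ ≤ N := e1
    have t3 : (N : ℝ) / L ^ (U + 2) ≤ N / L ^ (U + 1) := by
      apply div_le_div_of_nonneg_left hN0.le (by positivity)
      exact pow_le_pow_right₀ (by linarith) (by omega)
    calc (2 * ((N : ℝ) / J + 1) + 4) * (A * L ^ c1) ≤
        (2 * ((N : ℝ) / L ^ K + 1) + 4) * (A * L ^ c1) := by gcongr
      _ = A * (2 * ((N : ℝ) / L ^ K * L ^ c1) + 6 * L ^ c1) := by ring
      _ ≤ A * (2 * (N / L ^ (U + 1)) + N / L ^ (U + 1)) := by
          apply mul_le_mul_of_nonneg_left _ hA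
          rw [t1]
          linarith
      _ = 3 * (A * N / L ^ (U + 1)) := by ring
  have s7 : 2 * (A * N / L ^ (U + 2)) + 3 * (A * N / L ^ (U + 1)) ≤ A * N / L ^ U := by
    have hz : 0 ≤ A * N / L ^ (U + 2) := by positivity
    have t1 : A * N / L ^ (U + 1) = L * (A * N / L ^ (U + 2)) := by
      rw [pow_succ L (U + 1)]
      field_simp
    have t2 : A * N / L ^ U = L ^ 2 * (A * N / L ^ (U + 2)) := by
      rw [pow_add L U 2]
      field_simp
    rw [t1, t2]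
    have hq : 2 + 3 * L ≤ L ^ 2 := by nlinarith
    calc 2 * (A * ↑N / L ^ (U + 2)) + 3 * (L * (A * ↑N / L ^ (U + 2))) =
        (2 + 3 * L) * (A * ↑N / L ^ (U + 2)) := by ring
      _ ≤ _ := mul_le_mul_of_nonneg_right hq hz
  linarith

/-- **weights**: from an unweighted bound to a weighted one -/
theorem upWeight (κ : ℝ) (c U : ℕ) : ∃ (W : ℕ), ∀ N : ℕ, 8 ≤ N →
    ∀ {ι : Type} (P : Finset ι) (d : ι → ℕ) (E : ι → ℝ) (A : ℝ), 0 ≤ A →
    (∀ i ∈ P, 0 ≤ E i ∧ E i ≤ 2 * N / (Nat.totient (d i) : ℝ)) →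
    ∑ i ∈ P, (κ ^ 2) ^ (d i).primeFactors.card / (Nat.totient (d i) : ℝ) ≤
      A * Real.log N ^ c →
    ∑ i ∈ P, E i ≤ A * N / Real.log N ^ W →
    ∑ i ∈ P, κ ^ (d i).primeFactors.card * E i ≤ A * N / Real.log N ^ U := by
  refine ⟨2 * U + c + 1, fun N hN ι P d E A hA hE h1 h2 => ?_⟩
  have h8 : (8 : ℝ) ≤ N := by exact_mod_cast hN
  have hl : 2 ≤ Real.log N := by
    have h1 : Real.log 8 ≤ Real.log N := Real.log_le_log (by norm_num) h8
    have h2 : Real.log 8 = 3 * Real.log 2 := by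
      rw [show (8 : ℝ) = 2 ^ 3 by norm_num, Real.log_pow]; norm_num
    have := Real.log_two_gt_d9
    linarith
  set L := Real.log (N : ℝ)
  have hL0 : 0 < L := by linarith
  apply weights P (fun i => κ ^ (d i).primeFactors.card) E (2 * N * (A * L ^ c))
    (A * N / L ^ (2 * U + c + 1)) _ (fun i hi => (hE i hi).1) _ h2 (by positivity)
  · have e : 2 * (N : ℝ) * (A * L ^ c) * (A * N / L ^ (2 * U + c + 1)) =
        (A * N / L ^ U) ^ 2 * (2 / L) := by
      rw [show 2 * U + c + 1 = U * 2 + c + 1 by ring, pow_add, pow_add, pow_mul]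
      field_simp
    rw [e]
    have : 2 / L ≤ 1 := by
      rw [div_le_one hL0]
      exact hl
    nlinarith [sq_nonneg (A * N / L ^ U)]
  · calc ∑ i ∈ P, (κ ^ (d i).primeFactors.card) ^ 2 * E i ≤
        ∑ i ∈ P, 2 * (N : ℝ) * ((κ ^ 2) ^ (d i).primeFactors.card / (Nat.totient (d i) : ℝ)) := by
          apply sum_le_sum
          intro i hi
          have h3 := (hE i hi).2
          have h4 : 0 ≤ (κ ^ (d i).primeFactors.card) ^ 2 := sq_nonneg _
          calc (κ ^ (d i).primeFactors.card) ^ 2 * E i ≤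
              (κ ^ (d i).primeFactors.card) ^ 2 * (2 * N / (Nat.totient (d i) : ℝ)) :=
                mul_le_mul_of_nonneg_left h3 h4
            _ = _ := by
                rw [← pow_mul, mul_comm _ 2, pow_mul]
                ring
      _ = 2 * N * ∑ i ∈ P, (κ ^ 2) ^ (d i).primeFactors.card / (Nat.totient (d i) : ℝ) := by
          rw [← mul_sum]
      _ ≤ 2 * N * (A * L ^ c) := by gcongr

end Pool.Agent.H300R2.WEH
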