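import Pool.Agent.H343R2.EH.Exc
import Pool.Agent.H300R2.WEH.Up

/-!
Exceptional classes from family bounds, for an arbitrary nonnegative error function
(adapted from `H343E.exceptional_of_primes`).
-/

set_option autoImplicit false

open Finset

namespace Pool.Agent.H300R2.WEH

open H343E (Fam pick)

theorem exceptional_gen (e : ℕ → ℕ → ℕ → ℝ) (he : ∀ x q a, 0 ≤ e x q a)
    (primes : ∀ U : ℕ, ∃ (B x0 : ℕ), ∀ x : ℕ, x0 ≤ x → ∀ A : ℝ, 1 ≤ A → ∀ D : ℕ,
      (D : ℝ) ≤ x / Real.log x ^ B → (D : ℝ) ^ 2 ≤ A * x / Real.log x ^ B →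
      ∀ L : ℕ → Finset ℕ, Fam A L →
      ∑ q ∈ Icc 1 D, ∑ a ∈ L q, e x q a ≤
        A * x / Real.log x ^ U) (U : ℕ) :
    ∃ (B x0 : ℕ), ∀ x : ℕ, x0 ≤ x → ∃ (E : ℕ → Finset ℕ) (M : ℕ → ℝ),
    (∀ q, 1 ≤ q → ((E q).card : ℝ) ≤ Real.log x ^ B * q ^ 2 / x) ∧
    (∀ q a : ℕ, 1 ≤ q → a < q → a.Coprime q → a ∉ E q →
      e x q a ≤ M q) ∧
    (∀ q, 0 ≤ M q) ∧
    ∑ q ∈ Icc 1 x, M q ≤ x / Real.log x ^ U := by
  obtain ⟨B1, x1, hp⟩ := primes (U + 2)
  refine ⟨B1 + 2, max x1 16, fun x hx => ?_⟩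
  have hx1 : x1 ≤ x := (le_max_left _ _).trans hx
  have hx16 : 16 ≤ x := (le_max_right _ _).trans hx
  have hx16r : (16 : ℝ) ≤ x := by exact_mod_cast hx16
  have hxpos : (0 : ℝ) < x := by linarith
  set ℓ := Real.log x with hℓdef
  have hlog2 := Real.log_two_gt_d9
  have hℓ : 2 ≤ ℓ := by
    have h1 : Real.log 16 ≤ ℓ := Real.log_le_log (by norm_num) hx16r
    have h2 : Real.log 16 = 4 * Real.log 2 := by
      rw [show (16 : ℝ) = 2 ^ 4 by norm_num, Real.log_pow]
      norm_num
    linarith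
  have hℓpos : 0 < ℓ := by linarith
  set N : ℕ → ℕ := fun j => ⌊(4 : ℝ) ^ (j + 1) * ℓ ^ B1 / x⌋₊ with hN
  have key := fun q : ℕ => pick ((range q).filter (fun a => a.Coprime q))
    (fun a => e x q a) (fun a => he _ _ _)
    (N (Nat.log 2 q))
  choose E M L hE hM0 hEM hLR hLc hLM hMR using key
  refine ⟨E, M, ?_, ?_, hM0, ?_⟩
  · intro q hq
    have h1 : ((E q).card : ℝ) ≤ N (Nat.log 2 q) := by exact_mod_cast hE q
    have h2 : (N (Nat.log 2 q) : ℝ) ≤ (4 : ℝ) ^ (Nat.log 2 q + 1) * ℓ ^ B1 / x :=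
      Nat.floor_le (by positivity)
    have h3 : ((2 : ℝ) ^ (Nat.log 2 q)) ≤ q := by
      exact_mod_cast Nat.pow_log_le_self 2 (by omega)
    have h4 : (4 : ℝ) ^ (Nat.log 2 q + 1) ≤ ℓ ^ 2 * (q : ℝ) ^ 2 := by
      have e1 : (4 : ℝ) ^ (Nat.log 2 q + 1) = 4 * ((2 : ℝ) ^ (Nat.log 2 q)) ^ 2 := by
        rw [pow_succ, ← pow_mul, mul_comm (Nat.log 2 q) 2, pow_mul]
        norm_num
        ring
      rw [e1]
      have e2 : ((2 : ℝ) ^ (Nat.log 2 q)) ^ 2 ≤ (q : ℝ) ^ 2 := by gcongr
      have e3 : (4 : ℝ) ≤ ℓ ^ 2 := by nlinarith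
      have e4 : (0 : ℝ) ≤ (q : ℝ) ^ 2 := by positivity
      nlinarith
    calc ((E q).card : ℝ) ≤ (4 : ℝ) ^ (Nat.log 2 q + 1) * ℓ ^ B1 / x := h1.trans h2
      _ ≤ (ℓ ^ 2 * (q : ℝ) ^ 2) * ℓ ^ B1 / x := by gcongr
      _ = ℓ ^ (B1 + 2) * (q : ℝ) ^ 2 / x := by ring
  · intro q a hq haq hac haE
    exact hEM q a (mem_filter.2 ⟨mem_range.2 haq, hac⟩) haE
  · have hmaps : ∀ q ∈ Icc 1 x, Nat.log 2 q ∈ range (Nat.log 2 x + 1) := by
      intro q hq
      rw [mem_Icc] at hq
      rw [mem_range]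
      exact Nat.lt_succ_of_le (Nat.log_mono_right hq.2)
    rw [← sum_fiberwise_of_maps_to hmaps]
    have hblock : ∀ j ∈ range (Nat.log 2 x + 1),
        ∑ q ∈ (Icc 1 x).filter (fun q => Nat.log 2 q = j), M q ≤ x / ℓ ^ (U + 2) := by
      intro j _
      by_cases hall : ∀ q ∈ (Icc 1 x).filter (fun q => Nat.log 2 q = j), M q = 0
      · rw [sum_eq_zero hall]
        positivity
      · push Not at hall
        obtain ⟨q0, hq0, hMq0⟩ := hall
        rw [mem_filter, mem_Icc] at hq0
        have hR := hMR q0 hMq0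
        rw [hq0.2] at hR
        have hR2 : ((range q0).filter (fun a => a.Coprime q0)).card ≤ q0 := by
          calc ((range q0).filter (fun a => a.Coprime q0)).card ≤ (range q0).card :=
                card_filter_le _ _
            _ = q0 := card_range q0
        have hlt : q0 < 2 ^ (j + 1) := by
          have := Nat.lt_pow_succ_log_self (b := 2) (by norm_num) q0
          rwa [hq0.2] at this
        have hNj : N j + 1 ≤ 2 ^ (j + 1) := by omega
        have hNjr : (N j : ℝ) + 1 ≤ 2 ^ (j + 1) := by exact_mod_cast hNj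
        have hA : (4 : ℝ) ^ (j + 1) * ℓ ^ B1 / x < (N j : ℝ) + 1 := Nat.lt_floor_add_one _
        have h4 : (4 : ℝ) ^ (j + 1) = 2 ^ (j + 1) * 2 ^ (j + 1) := by
          rw [← mul_pow]
          norm_num
        have hℓB : 0 < ℓ ^ B1 := by positivity
        have hD1 : ((2 ^ (j + 1) : ℕ) : ℝ) ≤ x / ℓ ^ B1 := by
          push_cast
          rw [le_div_iff₀ hℓB]
          have h5 : (4 : ℝ) ^ (j + 1) * ℓ ^ B1 / x ≤ 2 ^ (j + 1) := hA.le.trans hNjr
          rw [div_le_iff₀ hxpos, h4] at h5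
          have h6 : (0 : ℝ) < 2 ^ (j + 1) := by positivity
          have h7 : (2 : ℝ) ^ (j + 1) * (2 ^ (j + 1) * ℓ ^ B1) ≤ 2 ^ (j + 1) * x := by
            linarith
          exact le_of_mul_le_mul_left h7 h6
        have hD2 : ((2 ^ (j + 1) : ℕ) : ℝ) ^ 2 ≤ ((N j : ℝ) + 1) * x / ℓ ^ B1 := by
          push_cast
          rw [le_div_iff₀ hℓB, sq, ← h4]
          rw [div_lt_iff₀ hxpos] at hA
          exact hA.le
        have hfam : Fam ((N j : ℝ) + 1) (fun q => if Nat.log 2 q = j then L q else ∅) := by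
          constructor
          · intro q a ha
            by_cases hqj : Nat.log 2 q = j
            · simp only [hqj, if_true] at ha
              have := hLR q ha
              rw [mem_filter, mem_range] at this
              exact this
            · simp [hqj] at ha
          · intro q
            by_cases hqj : Nat.log 2 q = j
            · simp only [hqj, if_true]
              have := hLc q
              rw [hqj] at this
              exact_mod_cast this
            · simp only [hqj, if_false, card_empty]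
              push_cast
              positivity
        have hmain := hp x hx1 ((N j : ℝ) + 1) (by
          have : (0 : ℝ) ≤ N j := Nat.cast_nonneg _
          linarith) (2 ^ (j + 1)) hD1 hD2 _ hfam
        have hApos : (0 : ℝ) < (N j : ℝ) + 1 := by positivity
        have hsub : (Icc 1 x).filter (fun q => Nat.log 2 q = j) ⊆ Icc 1 (2 ^ (j + 1)) := by
          intro q hq
          rw [mem_filter, mem_Icc] at hq
          rw [mem_Icc]
          refine ⟨hq.1.1, ?_⟩
          have := Nat.lt_pow_succ_log_self (b := 2) (by norm_num) q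
          rw [hq.2] at this
          exact this.le
        have hlow : ((N j : ℝ) + 1) * ∑ q ∈ (Icc 1 x).filter (fun q => Nat.log 2 q = j), M q ≤
            ∑ q ∈ Icc 1 (2 ^ (j + 1)), ∑ a ∈ (if Nat.log 2 q = j then L q else ∅),
              e x q a := by
          rw [mul_sum]
          refine le_trans ?_ (sum_le_sum_of_subset_of_nonneg hsub (fun q _ _ =>
            sum_nonneg fun a _ => he _ _ _))
          apply sum_le_sum
          intro q hq
          rw [mem_filter] at hq
          have h8 := hLM q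
          rw [hq.2] at h8
          simp only [hq.2, if_true]
          exact h8
        have h9 := hlow.trans hmain
        have h10 : ((N j : ℝ) + 1) * ∑ q ∈ (Icc 1 x).filter (fun q => Nat.log 2 q = j), M q ≤
            ((N j : ℝ) + 1) * (x / ℓ ^ (U + 2)) := by
          rw [← mul_div_assoc]
          exact h9
        exact le_of_mul_le_mul_left h10 hApos
    refine (sum_le_sum hblock).trans ?_
    rw [sum_const, card_range, nsmul_eq_mul]
    have hjb : ((Nat.log 2 x + 1 : ℕ) : ℝ) ≤ ℓ ^ 2 := by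
      push_cast
      have h1 : ((2 : ℝ) ^ (Nat.log 2 x)) ≤ x := by
        exact_mod_cast Nat.pow_log_le_self 2 (by omega)
      have h2 : (Nat.log 2 x : ℝ) * Real.log 2 ≤ ℓ := by
        have := Real.log_le_log (by positivity) h1
        rwa [Real.log_pow] at this
      have h3 : (Nat.log 2 x : ℝ) * 0.69 ≤ ℓ := by
        have : (0 : ℝ) ≤ Nat.log 2 x := Nat.cast_nonneg _
        nlinarith
      nlinarith
    have hpos : (0 : ℝ) ≤ x / ℓ ^ (U + 2) := by positivity
    calc ((Nat.log 2 x + 1 : ℕ) : ℝ) * (x / ℓ ^ (U + 2)) ≤ ℓ ^ 2 * (x / ℓ ^ (U + 2)) :=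
          mul_le_mul_of_nonneg_right hjb hpos
      _ = x / ℓ ^ U := by
          rw [pow_add]
          field_simp

end Pool.Agent.H300R2.WEH
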