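import Pool.Agent.H300R2.WEH.Exc
import Pool.Agent.H343R2.EH.Psi
import Pool.Agent.H442R2.EHI.PntErr

/-!
Family bound for `errMax`: at most `A` classes for each modulus.
-/

set_option autoImplicit false

open Finset

namespace Pool.Agent.H300R2.WEH

open H343E (Fam)
open Pool.Agent.H442R2.EHI

/-- if each modulus `d ≤ D` carries at most `A` elements then sums over pairs are at most `A`
times sums over moduli -/
lemma fam_sum (A : ℝ) (L : ℕ → Finset ℕ) (hL : Fam A L) (D N : ℕ) (hDN : D ≤ N)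
    (F : ℕ → ℝ) (hF : ∀ d, 0 ≤ F d) :
    ∑ i ∈ (Icc 1 D).sigma L, F i.1 ≤ A * ∑ d ∈ Icc 1 N, F d := by
  rw [sum_sigma]
  calc ∑ d ∈ Icc 1 D, ∑ a ∈ L d, F d = ∑ d ∈ Icc 1 D, ((L d).card : ℝ) * F d := by
        apply sum_congr rfl
        intro d _
        rw [sum_const, nsmul_eq_mul]
    _ ≤ ∑ d ∈ Icc 1 D, A * F d := sum_le_sum fun d _ =>
        mul_le_mul_of_nonneg_right (hL.card d) (hF d)
    _ = A * ∑ d ∈ Icc 1 D, F d := by rw [mul_sum]
    _ ≤ A * ∑ d ∈ Icc 1 N, F d := by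
        have hA : 0 ≤ A := le_trans (Nat.cast_nonneg _) (hL.card 0)
        apply mul_le_mul_of_nonneg_left _ hA
        exact sum_le_sum_of_subset_of_nonneg (Icc_subset_Icc_right hDN) fun d _ _ => hF d

theorem famMax (U : ℕ) : ∃ (B x0 : ℕ), ∀ x : ℕ, x0 ≤ x → ∀ A : ℝ, 1 ≤ A → ∀ D : ℕ,
      (D : ℝ) ≤ x / Real.log x ^ B → (D : ℝ) ^ 2 ≤ A * x / Real.log x ^ B →
      ∀ L : ℕ → Finset ℕ, Fam A L →
      ∑ q ∈ Icc 1 D, ∑ a ∈ L q, errMax x q a ≤ A * x / Real.log x ^ U := by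
  obtain ⟨c1, hc1⟩ := sum_log 1 le_rfl
  obtain ⟨U1, K, N1, hup⟩ := upMax c1 U
  obtain ⟨B1, x1, hpr⟩ := H343E.primes_of (U1 + 1) (H343E.unsmoothed (U1 + 1 + 2))
  obtain ⟨C, hC⟩ := pnt_err (U1 + c1 + 1)
  obtain ⟨N2, hgp⟩ := gp_facts K
  have hev1 := FinalOf.ev K (1 / 2) (by norm_num) 4 (by norm_num)
  have hev2 : ∀ᶠ X : ℝ in Filter.atTop, (x1 : ℝ) + 4 ≤ X ^ (1 / 2 : ℝ) :=
    (tendsto_rpow_atTop (by norm_num)).eventually (Filter.eventually_ge_atTop _)
  have hev5 : ∀ᶠ X : ℝ in Filter.atTop,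
      (4 : ℝ) + 2 ^ (U1 + 2) + 2 ^ (U1 + c1 + 2) * |C| ≤ Real.log X :=
    Real.tendsto_log_atTop.eventually (Filter.eventually_ge_atTop _)
  have hev6 : ∀ᶠ X : ℝ in Filter.atTop, (8 : ℝ) ≤ X := Filter.eventually_ge_atTop _
  obtain ⟨Y, hY⟩ := Filter.eventually_atTop.mp (hev1.and (hev2.and (hev5.and hev6)))
  refine ⟨B1 + K + 1, max (max N1 N2) ⌈Y⌉₊, fun x hx A hA D hD1 hD2 L hL => ?_⟩
  have hxN1 : N1 ≤ x := ((le_max_left _ _).trans (le_max_left _ _)).trans hx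
  have hxN2 : N2 ≤ x := ((le_max_right _ _).trans (le_max_left _ _)).trans hx
  obtain ⟨e1, e2, e3, e4⟩ := hY x ((Nat.le_ceil Y).trans (by
    exact_mod_cast (le_max_right _ _).trans hx))
  have p2 : (0 : ℝ) < 2 ^ (U1 + 2) := by positivity
  have p3 : (0 : ℝ) ≤ 2 ^ (U1 + c1 + 2) * |C| := by positivity
  have hx8 : 8 ≤ x := by exact_mod_cast e4
  have hx0 : (0 : ℝ) < x := by linarith
  set ℓ := Real.log (x : ℝ) with hℓ
  have hℓ4 : 4 ≤ ℓ := by linarith
  have hℓ0 : 0 < ℓ := by linarith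
  have hA0 : 0 ≤ A := by linarith
  have hDx : D ≤ x := by
    have : (D : ℝ) ≤ x := hD1.trans (div_le_self hx0.le (one_le_pow₀ (by linarith)))
    exact_mod_cast this
  have hsum1 : ∑ i ∈ (Icc 1 D).sigma L, 1 / (Nat.totient i.1 : ℝ) ≤ A * ℓ ^ c1 := by
    refine (fam_sum A L hL D x hDx (fun d => 1 / (Nat.totient d : ℝ))
      (fun d => by positivity)).trans ?_
    have h := hc1 x hx8
    simp only [one_pow] at h
    exact mul_le_mul_of_nonneg_left h hA0
  have hmain := hup x hxN1 ((Icc 1 D).sigma L) (fun i => i.1) (fun i => i.2) A hA0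
    (fun i hi => by
      rw [mem_sigma, mem_Icc] at hi
      exact hi.1.1) hsum1 ?_
  · rw [sum_sigma] at hmain
    exact hmain
  · intro j hj
    obtain ⟨g1, g2⟩ := hgp x hxN2 j hj
    set y := gp x (JJ K x) j with hy
    have hyx : (y : ℝ) ≤ x := by exact_mod_cast g2
    -- y ≥ √x
    have hy1 : (x : ℝ) ^ (1 / 2 : ℝ) ≤ y := by
      refine le_trans ?_ g1
      rw [le_div_iff₀ (by positivity)]
      calc (x : ℝ) ^ (1 / 2 : ℝ) * (4 * ℓ ^ K) ≤ (x : ℝ) ^ (1 / 2 : ℝ) * (x : ℝ) ^ (1 / 2 : ℝ) := by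
            gcongr
        _ = x := by
            rw [← Real.rpow_add hx0]; norm_num
    have hyx1 : x1 ≤ y := by
      have : (x1 : ℝ) ≤ y := by linarith
      exact_mod_cast this
    have hy4 : (4 : ℝ) ≤ y := by
      have : (0 : ℝ) ≤ x1 := Nat.cast_nonneg _
      linarith
    have hy2 : 2 ≤ y := by
      have : (2 : ℝ) ≤ y := by linarith
      exact_mod_cast this
    have hy0 : (0 : ℝ) < y := by linarith
    have hly : ℓ / 2 ≤ Real.log y := by
      have h1 := Real.log_le_log (by positivity) hy1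
      rw [Real.log_rpow hx0] at h1
      linarith
    have hlyx : Real.log y ≤ ℓ := Real.log_le_log hy0 hyx
    have hly0 : 0 < Real.log y := by linarith
    -- conditions
    have hBB : ∀ Z : ℝ, 0 ≤ Z → Z * x / ℓ ^ (B1 + K + 1) ≤ Z * y / Real.log y ^ B1 := by
      intro Z hZ
      rw [div_le_div_iff₀ (by positivity) (by positivity)]
      have h1 : (x : ℝ) ≤ y * (4 * ℓ ^ K) := by
        rwa [div_le_iff₀ (by positivity)] at g1
      have h2 : Real.log y ^ B1 ≤ ℓ ^ B1 := by gcongr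
      calc Z * x * Real.log y ^ B1 ≤ Z * (y * (4 * ℓ ^ K)) * ℓ ^ B1 := by gcongr
        _ = 4 * (Z * y * ℓ ^ (B1 + K)) := by rw [pow_add]; ring
        _ ≤ ℓ * (Z * y * ℓ ^ (B1 + K)) := by
            apply mul_le_mul_of_nonneg_right hℓ4
            positivity
        _ = Z * y * ℓ ^ (B1 + K + 1) := by rw [pow_succ]; ring
    have hc1' : (D : ℝ) ≤ y / Real.log y ^ B1 := by
      have := hBB 1 zero_le_one
      rw [one_mul, one_mul] at this
      exact hD1.trans this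
    have hc2' : (D : ℝ) ^ 2 ≤ A * y / Real.log y ^ B1 := hD2.trans (hBB A hA0)
    have h1 := hpr y hyx1 A hA D hc1' hc2' L hL
    have h2 := hC y hy2
    -- comparison of y/log^V y
    have hcmp : ∀ V : ℕ, (y : ℝ) / Real.log y ^ V ≤ 2 ^ V * (x / ℓ ^ V) := by
      intro V
      have h3 : (ℓ / 2) ^ V ≤ Real.log y ^ V := by gcongr
      calc (y : ℝ) / Real.log y ^ V ≤ x / (ℓ / 2) ^ V := by gcongr
        _ = 2 ^ V * (x / ℓ ^ V) := by
            rw [div_pow]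
            field_simp
    have hfirst : A * y / Real.log y ^ (U1 + 1) ≤ (A * x / ℓ ^ U1) / 2 := by
      have h3 := hcmp (U1 + 1)
      have h4 : (2 : ℝ) ^ (U1 + 2) ≤ ℓ := by linarith
      have h5 : (x : ℝ) / ℓ ^ U1 = ℓ * (x / ℓ ^ (U1 + 1)) := by
        rw [pow_succ]
        field_simp
      have h6 : 0 ≤ (x : ℝ) / ℓ ^ (U1 + 1) := by positivity
      have h7 : 2 ^ (U1 + 1) * ((x : ℝ) / ℓ ^ (U1 + 1)) ≤ (x / ℓ ^ U1) / 2 := by
        rw [h5]
        rw [pow_succ] at h4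
        nlinarith
      calc A * y / Real.log y ^ (U1 + 1) = A * (y / Real.log y ^ (U1 + 1)) := by ring
        _ ≤ A * ((x / ℓ ^ U1) / 2) := mul_le_mul_of_nonneg_left (h3.trans h7) hA0
        _ = _ := by ring
    have hsecond : |H343E.pi1 y - lis y| * (A * ℓ ^ c1) ≤ (A * x / ℓ ^ U1) / 2 := by
      have h3 := hcmp (U1 + c1 + 1)
      have h4 : 2 ^ (U1 + c1 + 2) * |C| ≤ ℓ := by linarith
      have h2' : |H343E.pi1 y - lis y| ≤ |C| * (y / Real.log y ^ (U1 + c1 + 1)) := by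
        refine le_trans h2 ?_
        rw [mul_div_assoc]
        apply mul_le_mul_of_nonneg_right (le_abs_self C)
        positivity
      have h5 : |H343E.pi1 y - lis y| ≤ |C| * (2 ^ (U1 + c1 + 1) * (x / ℓ ^ (U1 + c1 + 1))) :=
        h2'.trans (mul_le_mul_of_nonneg_left h3 (abs_nonneg _))
      have h6 : (x : ℝ) / ℓ ^ (U1 + c1 + 1) * ℓ ^ c1 * ℓ = x / ℓ ^ U1 := by
        rw [show U1 + c1 + 1 = U1 + (c1 + 1) by ring, pow_add, pow_succ]
        field_simp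
      have h7 : 0 ≤ (x : ℝ) / ℓ ^ (U1 + c1 + 1) * ℓ ^ c1 := by positivity
      calc |H343E.pi1 y - lis y| * (A * ℓ ^ c1) ≤
          |C| * (2 ^ (U1 + c1 + 1) * (x / ℓ ^ (U1 + c1 + 1))) * (A * ℓ ^ c1) := by gcongr
        _ = A * ((2 ^ (U1 + c1 + 2) * |C|) * (x / ℓ ^ (U1 + c1 + 1) * ℓ ^ c1) / 2) := by
            rw [pow_succ 2 (U1 + c1 + 1)]
            ring
        _ ≤ A * (ℓ * (x / ℓ ^ (U1 + c1 + 1) * ℓ ^ c1) / 2) := by
            apply mul_le_mul_of_nonneg_left _ hA0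
            apply div_le_div_of_nonneg_right _ (by norm_num)
            exact mul_le_mul_of_nonneg_right h4 h7
        _ = (A * x / ℓ ^ U1) / 2 := by
            rw [mul_comm ℓ, h6]
            ring
    have hpt : ∀ i ∈ (Icc 1 D).sigma L, eL y i.1 i.2 ≤
        |H343E.piAP y i.1 i.2 - H343E.pi1 y / (Nat.totient i.1 : ℝ)| +
          |H343E.pi1 y - lis y| * (1 / (Nat.totient i.1 : ℝ)) := by
      intro i hi
      unfold eL
      have e : piAP y i.1 i.2 - lis y / (Nat.totient i.1 : ℝ) =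
          (H343E.piAP y i.1 i.2 - H343E.pi1 y / (Nat.totient i.1 : ℝ)) +
          (H343E.pi1 y - lis y) * (1 / (Nat.totient i.1 : ℝ)) := by
        have : piAP y i.1 i.2 = H343E.piAP y i.1 i.2 := rfl
        rw [this]
        ring
      rw [e]
      refine (abs_add_le _ _).trans ?_
      rw [abs_mul, abs_of_nonneg (by positivity : (0:ℝ) ≤ 1 / (Nat.totient i.1 : ℝ))]
    refine (sum_le_sum hpt).trans ?_
    rw [sum_add_distrib, ← mul_sum, sum_sigma]
    have h9 : |H343E.pi1 y - lis y| * ∑ i ∈ (Icc 1 D).sigma L, 1 / (Nat.totient i.1 : ℝ) ≤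
        |H343E.pi1 y - lis y| * (A * ℓ ^ c1) := mul_le_mul_of_nonneg_left hsum1 (abs_nonneg _)
    linarith

end Pool.Agent.H300R2.WEH
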