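import Pool.Agent.H442R2.EHI.Core3
import Pool.Agent.H442R2.EHI.Lower
import Pool.Agent.H442R2.EHI.FinalOf
import Pool.Agent.H300R2.WEH.AAOf

/-!
The final theorem of `H442R2/EHI` in the form used by `AAOf` and `LPOf`.
-/

set_option autoImplicit false

namespace Pool.Agent.H300R2.WEH

theorem finalS (ε : ℝ) (hε : 0 < ε) (U : ℕ) : FinalS ε U :=
  Pool.Agent.H442R2.EHI.FinalOf.final_of ε hε
    (fun U => Pool.Agent.H442R2.EHI.core ε hε U) (fun U => Pool.Agent.H442R2.EHI.lower U) U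

end Pool.Agent.H300R2.WEH
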