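import Pool.Agent.H300R2.WEH.AAOf

/-!
Least primes in progressions on average over short intervals of residues: corollaries of the
final theorem of `H442R2/EHI`.
-/

set_option autoImplicit false

namespace Pool.Agent.H300R2.WEH

open Finset
open Pool.Agent.H442R2.EHI

/-- no prime below `t` among the numbers `d n + b`, `n ≥ 0` -/
def NoPrimeBelow (t : ℝ) (d b : ℕ) : Prop :=
  ∀ n : ℕ, (d * n + b).Prime → t ≤ ((d * n + b : ℕ) : ℝ)

open Classical in
/-- the reduced residues `b` in `(b0, b0 + A]` for which no prime below `t` is `≡ b (mod d)` -/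
noncomputable def badSet (t : ℝ) (d b0 A : ℕ) : Finset ℕ :=
  (Ioc b0 (b0 + A)).filter (fun b => b.Coprime d ∧ NoPrimeBelow t d b)

lemma mem_badSet {t : ℝ} {d b0 A b : ℕ} : b ∈ badSet t d b0 A ↔
    b ∈ Ioc b0 (b0 + A) ∧ b.Coprime d ∧ NoPrimeBelow t d b := by
  classical
  unfold badSet
  rw [mem_filter]

lemma badSet_card_le (t : ℝ) (d b0 A : ℕ) : (badSet t d b0 A).card ≤ A := by
  have h : badSet t d b0 A ⊆ Ioc b0 (b0 + A) := fun b hb => (mem_badSet.1 hb).1
  refine (card_le_card h).trans ?_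
  rw [Nat.card_Ioc]
  omega

lemma Li_ge (x : ℕ) (hx : 4 ≤ x) :
    (x : ℝ) / (2 * Real.log x) ≤ ∫ t in (2 : ℝ)..x, 1 / Real.log t := by
  have hx4 : (4 : ℝ) ≤ x := by exact_mod_cast hx
  have hl : 0 < Real.log (x : ℝ) := Real.log_pos (by linarith)
  have hint : IntervalIntegrable (fun t => 1 / Real.log t) MeasureTheory.volume 2 (x : ℝ) := by
    apply ContinuousOn.intervalIntegrable
    intro t ht
    rw [Set.uIcc_of_le (by linarith)] at ht
    have hlt : Real.log t ≠ 0 := (Real.log_pos (by linarith [ht.1])).ne'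
    have h1 : ContinuousAt (fun t => 1 / Real.log t) t :=
      continuousAt_const.div (Real.continuousAt_log (by linarith [ht.1])) hlt
    exact h1.continuousWithinAt
  have h1 : ∫ t in (2 : ℝ)..x, 1 / Real.log (x : ℝ) ≤ ∫ t in (2 : ℝ)..x, 1 / Real.log t := by
    apply intervalIntegral.integral_mono_on (by linarith) _ hint
    · intro t ht
      exact one_div_le_one_div_of_le (Real.log_pos (by linarith [ht.1]))
        (Real.log_le_log (by linarith [ht.1]) ht.2)
    · exact intervalIntegrable_const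
  rw [intervalIntegral.integral_const, smul_eq_mul] at h1
  refine le_trans ?_ h1
  rw [mul_one_div, div_le_div_iff₀ (by positivity) hl]
  nlinarith

/-- **few pairs `(d, b)` with a large least prime** -/
theorem pairs_of (hfinal : ∀ ε : ℝ, 0 < ε → ∀ U : ℕ, FinalS ε U)
    (ε : ℝ) (hε : 0 < ε) (U : ℕ) : ∃ C : ℝ, ∀ D : ℕ, 2 ≤ D → ∀ A b0 : ℕ,
    (D : ℝ) ^ ε ≤ A → b0 + A ≤ D →
    ((∑ d ∈ Ioc D (2 * D), (badSet ((d : ℝ) ^ (1 + ε)) d b0 A).card : ℕ) : ℝ) ≤
      C * (A * D / Real.log D ^ U) := by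
  rcases lt_or_ge 1 ε with hε1 | hε1
  · refine ⟨0, fun D hD A b0 hA hb => ?_⟩
    exfalso
    have hD2 : (2 : ℝ) ≤ D := by exact_mod_cast hD
    have h1 : (D : ℝ) < (D : ℝ) ^ ε := by
      calc (D : ℝ) = (D : ℝ) ^ (1 : ℝ) := (Real.rpow_one _).symm
        _ < (D : ℝ) ^ ε := Real.rpow_lt_rpow_of_exponent_lt (by linarith) hε1
    have h2 : (A : ℝ) ≤ D := by exact_mod_cast (by omega : A ≤ D)
    linarith
  obtain ⟨B, C1, hfin⟩ := hfinal (ε / 8) (by positivity) (U + 1)
  have hev1 := FinalOf.ev B (ε / 2) (by positivity) (2 ^ B) (by positivity)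
  have hev2 := FinalOf.ev 0 (ε / 4) (by positivity) 2 (by norm_num)
  have hev5 : ∀ᶠ X : ℝ in Filter.atTop, (1 : ℝ) ≤ Real.log X :=
    Real.tendsto_log_atTop.eventually (Filter.eventually_ge_atTop _)
  have hev6 : ∀ᶠ X : ℝ in Filter.atTop, (4 : ℝ) ≤ X := Filter.eventually_ge_atTop _
  obtain ⟨Y, hY⟩ := Filter.eventually_atTop.mp (hev1.and (hev2.and (hev5.and hev6)))
  obtain ⟨D0, hD0⟩ : ∃ D0 : ℕ, D0 = max ⌈Y⌉₊ 2 := ⟨_, rfl⟩
  obtain ⟨C, hC⟩ : ∃ C : ℝ, C = max (4 * |C1|) (Real.log D0 ^ U) := ⟨_, rfl⟩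
  have hC1 : 4 * |C1| ≤ C := by rw [hC]; exact le_max_left _ _
  have hC2 : Real.log D0 ^ U ≤ C := by rw [hC]; exact le_max_right _ _
  refine ⟨C, fun D hD A b0 hA hb => ?_⟩
  have hD2 : (2 : ℝ) ≤ D := by exact_mod_cast hD
  have hDp : (0 : ℝ) < D := by linarith
  have hlD : 0 < Real.log (D : ℝ) := Real.log_pos (by linarith)
  have hA0 : (0 : ℝ) ≤ A := Nat.cast_nonneg _
  rcases lt_or_ge D D0 with hlt | hge
  · have h1 : (∑ d ∈ Ioc D (2 * D), (badSet ((d : ℝ) ^ (1 + ε)) d b0 A).card) ≤ D * A := by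
      calc (∑ d ∈ Ioc D (2 * D), (badSet ((d : ℝ) ^ (1 + ε)) d b0 A).card) ≤
          ∑ d ∈ Ioc D (2 * D), A := sum_le_sum fun d _ => badSet_card_le _ _ _ _
        _ = D * A := by
            rw [sum_const, Nat.card_Ioc, smul_eq_mul]
            congr 1
            omega
    have h2 : ((∑ d ∈ Ioc D (2 * D), (badSet ((d : ℝ) ^ (1 + ε)) d b0 A).card : ℕ) : ℝ) ≤
        D * A := by exact_mod_cast h1
    refine h2.trans ?_
    have h3 : Real.log D ^ U ≤ C := by
      refine le_trans ?_ hC2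
      have : Real.log D ≤ Real.log D0 := Real.log_le_log hDp (by exact_mod_cast hlt.le)
      gcongr
    have hLU : 0 < Real.log (D : ℝ) ^ U := by positivity
    calc (D : ℝ) * A = Real.log D ^ U * (A * D / Real.log D ^ U) := by field_simp
      _ ≤ C * (A * D / Real.log D ^ U) := mul_le_mul_of_nonneg_right h3 (by positivity)
  · have hYD : Y ≤ D := (Nat.le_ceil Y).trans (by
      have : ⌈Y⌉₊ ≤ D := by
        refine le_trans ?_ hge
        rw [hD0]; exact le_max_left _ _
      exact_mod_cast this)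
    obtain ⟨e1, e2, e5, e6⟩ := hY D hYD
    rw [pow_zero, mul_one] at e2
    set x := ⌊(D : ℝ) ^ (1 + ε / 2)⌋₊ with hx
    have hpow1 : (1 : ℝ) ≤ (D : ℝ) ^ (1 + ε / 4) := Real.one_le_rpow (by linarith) (by positivity)
    have hxle : (x : ℝ) ≤ (D : ℝ) ^ (1 + ε / 2) := Nat.floor_le (by positivity)
    have hxge : (D : ℝ) ^ (1 + ε / 4) ≤ x := by
      have h1 : (D : ℝ) ^ (1 + ε / 2) < x + 1 := Nat.lt_floor_add_one _
      have h2 : (D : ℝ) ^ (1 + ε / 2) = (D : ℝ) ^ (1 + ε / 4) * (D : ℝ) ^ (ε / 4) := by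
        rw [← Real.rpow_add hDp]; congr 1; ring
      nlinarith
    have hDx : (D : ℝ) ≤ x := by
      refine le_trans ?_ hxge
      calc (D : ℝ) = (D : ℝ) ^ (1 : ℝ) := (Real.rpow_one _).symm
        _ ≤ (D : ℝ) ^ (1 + ε / 4) := Real.rpow_le_rpow_of_exponent_le (by linarith) (by linarith)
    have hDxn : D ≤ x := by exact_mod_cast hDx
    have hx4 : 4 ≤ x := by
      have : (4 : ℝ) ≤ x := by linarith
      exact_mod_cast this
    have hxp : (0 : ℝ) < x := by linarith
    have hlx : Real.log D ≤ Real.log x := Real.log_le_log hDp hDx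
    have hlx0 : 0 < Real.log (x : ℝ) := by linarith
    have hlx2 : Real.log x ≤ 2 * Real.log D := by
      have h1 := Real.log_le_log hxp hxle
      rw [Real.log_rpow hDp] at h1
      nlinarith
    have c1 : (x : ℝ) ^ (1 / 2 : ℝ) ≤ D := by
      calc (x : ℝ) ^ (1 / 2 : ℝ) ≤ ((D : ℝ) ^ (1 + ε / 2)) ^ (1 / 2 : ℝ) :=
            Real.rpow_le_rpow hxp.le hxle (by norm_num)
        _ = (D : ℝ) ^ ((1 + ε / 2) * (1 / 2)) := by rw [← Real.rpow_mul hDp.le]
        _ ≤ (D : ℝ) ^ (1 : ℝ) := by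
            apply Real.rpow_le_rpow_of_exponent_le (by linarith)
            linarith
        _ = D := Real.rpow_one _
    have c2 : (D : ℝ) ≤ (x : ℝ) ^ (1 - ε / 8) := by
      calc (D : ℝ) = (D : ℝ) ^ (1 : ℝ) := (Real.rpow_one _).symm
        _ ≤ (D : ℝ) ^ ((1 + ε / 4) * (1 - ε / 8)) := by
            apply Real.rpow_le_rpow_of_exponent_le (by linarith)
            nlinarith
        _ = ((D : ℝ) ^ (1 + ε / 4)) ^ (1 - ε / 8) := by rw [Real.rpow_mul hDp.le]
        _ ≤ (x : ℝ) ^ (1 - ε / 8) := Real.rpow_le_rpow (by positivity) hxge (by linarith)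
    have c3 : (x : ℝ) * Real.log x ^ B ≤ A * D := by
      have h1 : Real.log (x : ℝ) ^ B ≤ (D : ℝ) ^ (ε / 2) := by
        calc Real.log (x : ℝ) ^ B ≤ (2 * Real.log D) ^ B := by gcongr
          _ = 2 ^ B * Real.log D ^ B := by rw [mul_pow]
          _ ≤ (D : ℝ) ^ (ε / 2) := e1
      calc (x : ℝ) * Real.log x ^ B ≤ (D : ℝ) ^ (1 + ε / 2) * (D : ℝ) ^ (ε / 2) := by gcongr
        _ = (D : ℝ) ^ ε * D := by
            rw [← Real.rpow_add hDp]
            nth_rewrite 3 [← Real.rpow_one (D : ℝ)]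
            rw [← Real.rpow_add hDp]
            congr 1
            ring
        _ ≤ A * D := by gcongr
    have hmain := (hfin x (by omega) A b0 (by omega)).2 D c1 c2 c3
    set Li : ℝ := ∫ t in (2 : ℝ)..x, 1 / Real.log t with hLi
    have hLige := Li_ge x hx4
    -- lower bound
    have hlow : ((∑ d ∈ Ioc D (2 * D), (badSet ((d : ℝ) ^ (1 + ε)) d b0 A).card : ℕ) : ℝ) *
        (x / (4 * D * Real.log x)) ≤
        ∑ a ∈ Ioc b0 (b0 + A), ∑ d ∈ (Ioc D (2 * D)).filter (fun d => a.Coprime d),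
          |piAP x d a - Li / (Nat.totient d : ℝ)| := by
      have e : ∑ a ∈ Ioc b0 (b0 + A), ∑ d ∈ (Ioc D (2 * D)).filter (fun d => a.Coprime d),
          |piAP x d a - Li / (Nat.totient d : ℝ)| =
          ∑ d ∈ Ioc D (2 * D), ∑ a ∈ (Ioc b0 (b0 + A)).filter (fun a => a.Coprime d),
          |piAP x d a - Li / (Nat.totient d : ℝ)| := by
        simp only [sum_filter]
        rw [sum_comm]
      rw [e]
      push_cast
      rw [sum_mul]
      apply sum_le_sum
      intro d hd
      rw [mem_Ioc] at hd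
      have hdD : (D : ℝ) < d := by exact_mod_cast hd.1
      have hd2D : (d : ℝ) ≤ 2 * D := by exact_mod_cast hd.2
      have hd0 : (0 : ℝ) < d := by linarith
      have hφ : (1 : ℝ) ≤ Nat.totient d := by exact_mod_cast Nat.totient_pos.mpr (by omega)
      have hφ2 : (Nat.totient d : ℝ) ≤ 2 * D := by
        have : (Nat.totient d : ℝ) ≤ d := by exact_mod_cast Nat.totient_le d
        linarith
      have hsub : badSet ((d : ℝ) ^ (1 + ε)) d b0 A ⊆
          (Ioc b0 (b0 + A)).filter (fun a => a.Coprime d) := by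
        intro b hb'
        rw [mem_badSet] at hb'
        rw [mem_filter]
        exact ⟨hb'.1, hb'.2.1⟩
      calc ((badSet ((d : ℝ) ^ (1 + ε)) d b0 A).card : ℝ) * (x / (4 * D * Real.log x)) =
          ∑ b ∈ badSet ((d : ℝ) ^ (1 + ε)) d b0 A, (x : ℝ) / (4 * D * Real.log x) := by
            rw [sum_const, nsmul_eq_mul]
        _ ≤ ∑ b ∈ badSet ((d : ℝ) ^ (1 + ε)) d b0 A, |piAP x d b - Li / (Nat.totient d : ℝ)| := by
            apply sum_le_sum
            intro b hb'
            rw [mem_badSet, mem_Ioc] at hb'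
            have hpi : piAP x d b = 0 := by
              unfold piAP
              have : ((Icc 1 x).filter (fun p => p.Prime ∧ p ≡ b [MOD d])) = ∅ := by
                rw [filter_eq_empty_iff]
                rintro p hp ⟨hpp, hpb⟩
                rw [mem_Icc] at hp
                have hbd : b < d := by omega
                have h1 : p % d = b := by
                  have h2 : p % d = b % d := hpb
                  rw [h2, Nat.mod_eq_of_lt hbd]
                have h3 : d * (p / d) + b = p := by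
                  rw [← h1]
                  exact Nat.div_add_mod p d
                have h4 := hb'.2.2 (p / d) (by rw [h3]; exact hpp)
                rw [h3] at h4
                have h5 : (p : ℝ) ≤ x := by exact_mod_cast hp.2
                have h6 : (D : ℝ) ^ (1 + ε / 2) < (d : ℝ) ^ (1 + ε) := by
                  calc (D : ℝ) ^ (1 + ε / 2) ≤ (D : ℝ) ^ (1 + ε) :=
                        Real.rpow_le_rpow_of_exponent_le (by linarith) (by linarith)
                    _ < (d : ℝ) ^ (1 + ε) := Real.rpow_lt_rpow hDp.le hdD (by linarith)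
                linarith
              rw [this]
              simp
            rw [hpi, zero_sub, abs_neg]
            have hLi0 : 0 < Li := lt_of_lt_of_le (by positivity) hLige
            rw [abs_of_pos (by positivity)]
            calc (x : ℝ) / (4 * D * Real.log x) = (x / (2 * Real.log x)) / (2 * D) := by
                  field_simp
                  ring
              _ ≤ Li / (2 * D) := by gcongr
              _ ≤ Li / (Nat.totient d : ℝ) := by gcongr
        _ ≤ ∑ a ∈ (Ioc b0 (b0 + A)).filter (fun a => a.Coprime d),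
            |piAP x d a - Li / (Nat.totient d : ℝ)| :=
            sum_le_sum_of_subset_of_nonneg hsub fun _ _ _ => abs_nonneg _
    have hcomb := hlow.trans hmain
    set S : ℝ := ((∑ d ∈ Ioc D (2 * D), (badSet ((d : ℝ) ^ (1 + ε)) d b0 A).card : ℕ) : ℝ)
    have h1 : S ≤ C1 * (A * x / Real.log x ^ (U + 1)) * (4 * D * Real.log x / x) := by
      have hpos : 0 < (x : ℝ) / (4 * D * Real.log x) := by positivity
      have e : (4 * (D : ℝ) * Real.log x / x) = 1 / (x / (4 * D * Real.log x)) := by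
        rw [one_div_div]
      rw [e, mul_one_div, le_div_iff₀ hpos]
      exact hcomb
    have h2 : C1 * (A * x / Real.log x ^ (U + 1)) * (4 * D * Real.log x / x) =
        4 * C1 * (A * D / Real.log x ^ U) := by
      rw [pow_succ]
      field_simp
    have h3 : A * D / Real.log x ^ U ≤ A * D / Real.log D ^ U := by
      apply div_le_div_of_nonneg_left (by positivity) (by positivity)
      exact pow_le_pow_left₀ hlD.le hlx U
    have h4 : 0 ≤ A * D / Real.log (x : ℝ) ^ U := by positivity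
    calc S ≤ 4 * C1 * (A * D / Real.log x ^ U) := by rw [← h2]; exact h1
      _ ≤ 4 * |C1| * (A * D / Real.log x ^ U) := by
          apply mul_le_mul_of_nonneg_right _ h4
          linarith [le_abs_self C1]
      _ ≤ C * (A * D / Real.log x ^ U) := mul_le_mul_of_nonneg_right hC1 h4
      _ ≤ C * (A * D / Real.log D ^ U) := by
          apply mul_le_mul_of_nonneg_left h3
          linarith [abs_nonneg C1]

/-- **few moduli with many residues having a large least prime** -/
theorem moduli_of (hfinal : ∀ ε : ℝ, 0 < ε → ∀ U : ℕ, FinalS ε U)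
    (ε : ℝ) (hε : 0 < ε) (hε1 : ε < 1) (U : ℕ) : ∃ C : ℝ, ∀ D : ℕ, 2 ≤ D →
    ∃ S : Finset ℕ, S ⊆ Ioc D (2 * D) ∧ (S.card : ℝ) ≤ C * (D / Real.log D ^ U) ∧
    ∀ d ∈ Ioc D (2 * D), d ∉ S →
      ((badSet ((d : ℝ) ^ (1 + ε)) d 0 ⌊(d : ℝ) ^ ε⌋₊).card : ℝ) ≤ (d : ℝ) ^ ε / Real.log d ^ U := by
  obtain ⟨C0, h0⟩ := pairs_of hfinal ε hε (2 * U)
  have hev1 : ∀ᶠ X : ℝ in Filter.atTop, 1 / ((2 : ℝ) ^ ε - 1) ≤ X ^ ε :=
    (tendsto_rpow_atTop hε).eventually (Filter.eventually_ge_atTop _)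
  have hev2 := FinalOf.ev 0 (1 - ε) (by linarith) (2 ^ ε) (by positivity)
  have hev6 : ∀ᶠ X : ℝ in Filter.atTop, (3 : ℝ) ≤ X := Filter.eventually_ge_atTop _
  obtain ⟨Y, hY⟩ := Filter.eventually_atTop.mp (hev1.and (hev2.and hev6))
  obtain ⟨D0, hD0⟩ : ∃ D0 : ℕ, D0 = max ⌈Y⌉₊ 2 := ⟨_, rfl⟩
  obtain ⟨C, hC⟩ : ∃ C : ℝ, C = max (2 * 2 ^ U * |C0|) (Real.log D0 ^ U) := ⟨_, rfl⟩
  have hC1 : 2 * 2 ^ U * |C0| ≤ C := by rw [hC]; exact le_max_left _ _
  have hC2 : Real.log D0 ^ U ≤ C := by rw [hC]; exact le_max_right _ _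
  refine ⟨C, fun D hD => ?_⟩
  have hD2 : (2 : ℝ) ≤ D := by exact_mod_cast hD
  have hDp : (0 : ℝ) < D := by linarith
  have hlD : 0 < Real.log (D : ℝ) := Real.log_pos (by linarith)
  rcases lt_or_ge D D0 with hlt | hge
  · refine ⟨Ioc D (2 * D), subset_rfl, ?_, fun d hd hd' => absurd hd hd'⟩
    have h3 : Real.log D ^ U ≤ C := by
      refine le_trans ?_ hC2
      have : Real.log D ≤ Real.log D0 := Real.log_le_log hDp (by exact_mod_cast hlt.le)
      gcongr
    have hLU : 0 < Real.log (D : ℝ) ^ U := by positivity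
    rw [Nat.card_Ioc]
    have h4 : ((2 * D - D : ℕ) : ℝ) = D := by congr 1; omega
    rw [h4]
    calc (D : ℝ) = Real.log D ^ U * (D / Real.log D ^ U) := by field_simp
      _ ≤ C * (D / Real.log D ^ U) := mul_le_mul_of_nonneg_right h3 (by positivity)
  · classical
    have hYD : Y ≤ D := (Nat.le_ceil Y).trans (by
      have : ⌈Y⌉₊ ≤ D := by
        refine le_trans ?_ hge
        rw [hD0]; exact le_max_left _ _
      exact_mod_cast this)
    obtain ⟨e1, e2, e6⟩ := hY D hYD
    rw [pow_zero, mul_one] at e2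
    have h2ε : (1 : ℝ) < 2 ^ ε := Real.one_lt_rpow (by norm_num) hε
    obtain ⟨A, hA⟩ : ∃ A : ℕ, A = ⌊(2 * (D : ℝ)) ^ ε⌋₊ := ⟨_, rfl⟩
    have hmul : (2 * (D : ℝ)) ^ ε = 2 ^ ε * (D : ℝ) ^ ε :=
      Real.mul_rpow (by norm_num) hDp.le
    have hAle : (A : ℝ) ≤ 2 ^ ε * (D : ℝ) ^ ε := by
      rw [hA, ← hmul]
      exact Nat.floor_le (by positivity)
    have hAge : (D : ℝ) ^ ε ≤ A := by
      have h1 : (2 * (D : ℝ)) ^ ε < A + 1 := by
        rw [hA]
        exact Nat.lt_floor_add_one _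
      rw [hmul] at h1
      rw [div_le_iff₀ (by linarith)] at e1
      nlinarith
    have hAD : (A : ℝ) ≤ D := by
      calc (A : ℝ) ≤ 2 ^ ε * (D : ℝ) ^ ε := hAle
        _ ≤ (D : ℝ) ^ (1 - ε) * (D : ℝ) ^ ε := by gcongr
        _ = D := by
            rw [← Real.rpow_add hDp]; simp
    have hADn : A ≤ D := by exact_mod_cast hAD
    have hmain := h0 D hD A 0 hAge (by omega)
    refine ⟨(Ioc D (2 * D)).filter (fun d : ℕ => (d : ℝ) ^ ε / Real.log d ^ U <
      ((badSet ((d : ℝ) ^ (1 + ε)) d 0 A).card : ℝ)), filter_subset _ _, ?_, ?_⟩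
    · set S := (Ioc D (2 * D)).filter (fun d : ℕ => (d : ℝ) ^ ε / Real.log d ^ U <
        ((badSet ((d : ℝ) ^ (1 + ε)) d 0 A).card : ℝ)) with hS
      have hl2 : Real.log (2 * (D : ℝ)) ≤ 2 * Real.log D := by
        rw [Real.log_mul (by norm_num) (by linarith)]
        have : Real.log 2 ≤ Real.log D := Real.log_le_log (by norm_num) hD2
        linarith
      have h1 : (S.card : ℝ) * ((D : ℝ) ^ ε / (2 * Real.log D) ^ U) ≤
          ((∑ d ∈ Ioc D (2 * D), (badSet ((d : ℝ) ^ (1 + ε)) d 0 A).card : ℕ) : ℝ) := by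
        push_cast
        calc (S.card : ℝ) * ((D : ℝ) ^ ε / (2 * Real.log D) ^ U) =
            ∑ d ∈ S, (D : ℝ) ^ ε / (2 * Real.log D) ^ U := by rw [sum_const, nsmul_eq_mul]
          _ ≤ ∑ d ∈ S, ((badSet ((d : ℝ) ^ (1 + ε)) d 0 A).card : ℝ) := by
              apply sum_le_sum
              intro d hd
              rw [hS, mem_filter, mem_Ioc] at hd
              have hdD : (D : ℝ) < d := by exact_mod_cast hd.1.1
              have hd2D : (d : ℝ) ≤ 2 * D := by exact_mod_cast hd.1.2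
              have hld : 0 < Real.log (d : ℝ) := Real.log_pos (by linarith)
              refine le_trans ?_ hd.2.le
              have h3 : Real.log (d : ℝ) ≤ 2 * Real.log D :=
                (Real.log_le_log (by linarith) hd2D).trans hl2
              gcongr
          _ ≤ ∑ d ∈ Ioc D (2 * D), ((badSet ((d : ℝ) ^ (1 + ε)) d 0 A).card : ℝ) :=
              sum_le_sum_of_subset_of_nonneg (filter_subset _ _) fun _ _ _ => by positivity
      have h2 := h1.trans hmain
      have hpos : 0 < (D : ℝ) ^ ε / (2 * Real.log D) ^ U := by positivity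
      rw [← le_div_iff₀ hpos] at h2
      refine h2.trans ?_
      have h5 : C0 * (A * D / Real.log D ^ (2 * U)) ≤
          |C0| * (2 * (D : ℝ) ^ ε * D / Real.log D ^ (2 * U)) := by
        have h6 : (2 : ℝ) ^ ε ≤ 2 := by
          calc (2 : ℝ) ^ ε ≤ 2 ^ (1 : ℝ) :=
                Real.rpow_le_rpow_of_exponent_le (by norm_num) hε1.le
            _ = 2 := Real.rpow_one _
        have h7 : (A : ℝ) ≤ 2 * (D : ℝ) ^ ε := by
          refine hAle.trans ?_
          gcongr
        calc C0 * (A * D / Real.log D ^ (2 * U)) ≤ |C0| * (A * D / Real.log D ^ (2 * U)) :=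
              mul_le_mul_of_nonneg_right (le_abs_self _) (by positivity)
          _ ≤ |C0| * (2 * (D : ℝ) ^ ε * D / Real.log D ^ (2 * U)) := by gcongr
      calc C0 * (A * D / Real.log D ^ (2 * U)) / ((D : ℝ) ^ ε / (2 * Real.log D) ^ U) ≤
          |C0| * (2 * (D : ℝ) ^ ε * D / Real.log D ^ (2 * U)) /
            ((D : ℝ) ^ ε / (2 * Real.log D) ^ U) := by gcongr
        _ = (2 * 2 ^ U * |C0|) * (D / Real.log D ^ U) := by
            rw [mul_pow, two_mul U, pow_add]
            field_simp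
        _ ≤ C * (D / Real.log D ^ U) := mul_le_mul_of_nonneg_right hC1 (by positivity)
    · intro d hd hdS
      rw [mem_filter] at hdS
      push Not at hdS
      refine le_trans ?_ (hdS hd)
      rw [mem_Ioc] at hd
      have hd2D : (d : ℝ) ≤ 2 * D := by exact_mod_cast hd.2
      have hsub : badSet ((d : ℝ) ^ (1 + ε)) d 0 ⌊(d : ℝ) ^ ε⌋₊ ⊆
          badSet ((d : ℝ) ^ (1 + ε)) d 0 A := by
        intro b hb
        rw [mem_badSet, mem_Ioc] at hb ⊢
        refine ⟨⟨hb.1.1, hb.1.2.trans ?_⟩, hb.2⟩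
        have : ⌊(d : ℝ) ^ ε⌋₊ ≤ A := by
          rw [hA]
          exact Nat.floor_le_floor (Real.rpow_le_rpow (Nat.cast_nonneg _) hd2D hε.le)
        omega
      exact_mod_cast card_le_card hsub

end Pool.Agent.H300R2.WEH
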